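import Pool.Agent.Q264.Bes.Malt

/-!
Sparse triple systems closed under a componentwise majority operation have `o(n ^ 2)` triples, and
a system with `n ^ (3/2)` triples closed under a Mal'tsev operation.
-/

set_option autoImplicit false

namespace Pool.Agent.Q264.Bes

open Finset SimpleGraph SimpleGraph.TripartiteFromTriangles Sum3

universe u v w

section majority

variable {X : Type u} {Y : Type v} {Z : Type w}

/-- `t` and `h` share two coordinates -/
def Share (t h : X × Y × Z) : Prop :=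
  (t.1 = h.1 ∧ t.2.1 = h.2.1) ∨ (t.1 = h.1 ∧ t.2.2 = h.2.2) ∨ (t.2.1 = h.2.1 ∧ t.2.2 = h.2.2)

lemma disjoint_of_insert [DecidableEq X] [DecidableEq Y] [DecidableEq Z]
    {T : Finset (X × Y × Z)} (hT : ExplicitDisjoint T) {h : X × Y × Z}
    (hn : ∀ t ∈ T, ¬ Share t h) : ExplicitDisjoint (insert h T) := by
  refine ⟨?_, ?_, ?_⟩
  · intro a b c a' h1 h2
    rcases Finset.mem_insert.1 h1 with h1 | h1
    · rcases Finset.mem_insert.1 h2 with h2 | h2
      · rw [← h2] at h1; exact congrArg Prod.fst h1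
      · exact absurd (by rw [← h1]; exact Or.inr (Or.inr ⟨rfl, rfl⟩)) (hn _ h2)
    · rcases Finset.mem_insert.1 h2 with h2 | h2
      · exact absurd (by rw [← h2]; exact Or.inr (Or.inr ⟨rfl, rfl⟩)) (hn _ h1)
      · exact hT.inj₀ h1 h2
  · intro a b c b' h1 h2
    rcases Finset.mem_insert.1 h1 with h1 | h1
    · rcases Finset.mem_insert.1 h2 with h2 | h2
      · rw [← h2] at h1; exact congrArg (fun p => p.2.1) h1
      · exact absurd (by rw [← h1]; exact Or.inr (Or.inl ⟨rfl, rfl⟩)) (hn _ h2)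
    · rcases Finset.mem_insert.1 h2 with h2 | h2
      · exact absurd (by rw [← h2]; exact Or.inr (Or.inl ⟨rfl, rfl⟩)) (hn _ h1)
      · exact hT.inj₁ h1 h2
  · intro a b c c' h1 h2
    rcases Finset.mem_insert.1 h1 with h1 | h1
    · rcases Finset.mem_insert.1 h2 with h2 | h2
      · rw [← h2] at h1; exact congrArg (fun p => p.2.2) h1
      · exact absurd (by rw [← h1]; exact Or.inl ⟨rfl, rfl⟩) (hn _ h2)
    · rcases Finset.mem_insert.1 h2 with h2 | h2
      · exact absurd (by rw [← h2]; exact Or.inl ⟨rfl, rfl⟩) (hn _ h1)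
      · exact hT.inj₂ h1 h2

/-- a large part of `H` is linear -/
lemma linear_part {e : ℕ} {H : Finset (X × Y × Z)} (hH : Sparse e H) :
    ∃ T ⊆ H, ExplicitDisjoint T ∧ H.card ≤ T.card * (3 * e) := by
  classical
  obtain ⟨T, hT, hmax⟩ := Finset.exists_max_image (H.powerset.filter fun T => ExplicitDisjoint T)
    Finset.card ⟨∅, Finset.mem_filter.2 ⟨Finset.empty_mem_powerset _,
      ⟨fun _ _ _ _ h => absurd h (Finset.notMem_empty _),
        fun _ _ _ _ h => absurd h (Finset.notMem_empty _),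
        fun _ _ _ _ h => absurd h (Finset.notMem_empty _)⟩⟩⟩
  obtain ⟨hTH, hTd⟩ := Finset.mem_filter.1 hT
  rw [Finset.mem_powerset] at hTH
  refine ⟨T, hTH, hTd, ?_⟩
  have hshare : ∀ h ∈ H, ∃ t ∈ T, Share t h := by
    intro h hh
    by_contra hcon
    push Not at hcon
    have hnT : h ∉ T := fun h1 => hcon h h1 (Or.inl ⟨rfl, rfl⟩)
    have h2 := hmax (insert h T) (Finset.mem_filter.2 ⟨Finset.mem_powerset.2
      (Finset.insert_subset hh hTH), disjoint_of_insert hTd hcon⟩)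
    rw [Finset.card_insert_of_notMem hnT] at h2
    omega
  have hsub : H ⊆ T.biUnion fun t => H.filter fun h => Share t h := by
    intro h hh
    obtain ⟨t, ht, hs⟩ := hshare h hh
    exact Finset.mem_biUnion.2 ⟨t, ht, Finset.mem_filter.2 ⟨hh, hs⟩⟩
  refine (Finset.card_le_card hsub).trans (Finset.card_biUnion_le_card_mul _ _ _ ?_)
  intro t _
  have h1 : (H.filter fun h => Share t h) ⊆
      (H.filter fun h => h.1 = t.1 ∧ h.2.1 = t.2.1) ∪
        ((H.filter fun h => h.1 = t.1 ∧ h.2.2 = t.2.2) ∪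
          (H.filter fun h => h.2.1 = t.2.1 ∧ h.2.2 = t.2.2)) := by
    intro h hh
    obtain ⟨hh, hs⟩ := Finset.mem_filter.1 hh
    rcases hs with ⟨h1, h2⟩ | ⟨h1, h2⟩ | ⟨h1, h2⟩
    · exact Finset.mem_union_left _ (Finset.mem_filter.2 ⟨hh, h1.symm, h2.symm⟩)
    · exact Finset.mem_union_right _ (Finset.mem_union_left _
        (Finset.mem_filter.2 ⟨hh, h1.symm, h2.symm⟩))
    · exact Finset.mem_union_right _ (Finset.mem_union_right _
        (Finset.mem_filter.2 ⟨hh, h1.symm, h2.symm⟩))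
  have h2 := codeg hH (H.filter fun h => h.1 = t.1 ∧ h.2.1 = t.2.1) (Finset.filter_subset _ _)
    t.1 t.2.1 (fun s hs => (Finset.mem_filter.1 hs).2)
  have h3 := codeg' hH (H.filter fun h => h.1 = t.1 ∧ h.2.2 = t.2.2) (Finset.filter_subset _ _)
    t.1 t.2.2 (fun s hs => (Finset.mem_filter.1 hs).2)
  have h4 := codeg'' hH (H.filter fun h => h.2.1 = t.2.1 ∧ h.2.2 = t.2.2)
    (Finset.filter_subset _ _) t.2.1 t.2.2 (fun s hs => (Finset.mem_filter.1 hs).2)
  have h5 := (Finset.card_le_card h1).trans ((Finset.card_union_le _ _).trans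
    (Nat.add_le_add_left (Finset.card_union_le _ _) _))
  omega

/-- trivial bound -/
lemma trivial_bound [Fintype X] [Fintype Y] {e : ℕ} {H : Finset (X × Y × Z)} (hH : Sparse e H) :
    H.card ≤ Fintype.card X * Fintype.card Y * e := by
  classical
  rw [Finset.card_eq_sum_card_fiberwise (f := fun t : X × Y × Z => (t.1, t.2.1))
    (t := Finset.univ) (fun _ _ => Finset.mem_coe.2 (Finset.mem_univ _)), ← Fintype.card_prod,
    ← Finset.card_univ, ← smul_eq_mul]
  apply Finset.sum_le_card_nsmul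
  rintro ⟨x, y⟩ _
  exact (codeg hH _ (Finset.filter_subset _ _) x y (fun s hs =>
    Prod.mk.inj (Finset.mem_filter.1 hs).2)).le

/-- **Majority operations.** -/
theorem majority_bound (e : ℕ) (ε : ℝ) (hε : 0 < ε) : ∃ N : ℕ, ∀ n : ℕ, N ≤ n →
    ∀ (X : Type u) (Y : Type v) (Z : Type w) [Fintype X] [Fintype Y] [Fintype Z],
      Fintype.card X ≤ n → Fintype.card Y ≤ n → Fintype.card Z ≤ n →
    ∀ (p : X → X → X → X) (q : Y → Y → Y → Y) (r : Z → Z → Z → Z),
      IsMajority p → IsMajority q → IsMajority r →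
    ∀ H : Finset (X × Y × Z), Closed3 p q r H → Sparse e H → (H.card : ℝ) ≤ ε * (n : ℝ) ^ 2 := by
  classical
  rcases Nat.eq_zero_or_pos e with he | he
  · subst he
    refine ⟨0, fun n _ X Y Z _ _ _ _ _ _ p q r _ _ _ H _ hH => ?_⟩
    exact absurd (hH ∅ (Finset.empty_subset _) rfl) (by simp [spanned])
  have he1 : (0 : ℝ) < e := by exact_mod_cast he
  set δ : ℝ := ε / (27 * e) with hδ
  have hδ0 : 0 < δ := by positivity
  set b : ℝ := triangleRemovalBound δ with hb
  have hb0 : 0 < b := triangleRemovalBound_pos hδ0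
  obtain ⟨N, hN⟩ := exists_nat_gt ((e : ℝ) * ((e : ℝ) / b) ^ 2 / ε)
  refine ⟨N + 1, fun n hn X Y Z _ _ _ hX hY hZ p q r hp hq hr H hcl hH => ?_⟩
  by_contra hcon
  push Not at hcon
  obtain ⟨T, hTH, hTd, hTc⟩ := linear_part hH
  set M : ℕ := Fintype.card X + Fintype.card Y + Fintype.card Z with hM
  have hM3 : (M : ℝ) ≤ 3 * n := by
    have : M ≤ 3 * n := by omega
    exact_mod_cast this
  have hTc' : (H.card : ℝ) ≤ T.card * (3 * e) := by exact_mod_cast hTc
  have hfar : (graph T).FarFromTriangleFree δ := by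
    apply farFromTriangleFree
    push_cast
    have h1 : ε * (n : ℝ) ^ 2 ≤ T.card * (3 * e) := hcon.le.trans hTc'
    have h2 : (M : ℝ) ^ 2 ≤ (3 * n) ^ 2 := pow_le_pow_left₀ (Nat.cast_nonneg _) hM3 2
    have h3 : δ * (M : ℝ) ^ 2 ≤ δ * (3 * n) ^ 2 := mul_le_mul_of_nonneg_left h2 hδ0.le
    have h4 : δ * (3 * (n : ℝ)) ^ 2 = ε * (n : ℝ) ^ 2 / (3 * e) := by
      rw [hδ]; field_simp; ring
    have h5 : ε * (n : ℝ) ^ 2 / (3 * e) ≤ T.card := by
      rw [div_le_iff₀ (by positivity)]; exact h1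
    have h6 : (Fintype.card X : ℝ) + Fintype.card Y + Fintype.card Z = M := by
      rw [hM]; push_cast; ring
    rw [h6]
    linarith
  have hcl3 := hfar.le_card_cliqueFinset
  have hcard : Fintype.card (X ⊕ Y ⊕ Z) = M := by
    rw [Fintype.card_sum, Fintype.card_sum, hM]; ring
  rw [hcard] at hcl3
  have hle : ((graph T).cliqueFinset 3).card ≤ H.card := by
    have hsub : (graph T).cliqueFinset 3 ⊆ H.map toTriangle := by
      intro s hs
      rw [mem_cliqueFinset_iff, SimpleGraph.is3Clique_iff] at hs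
      obtain ⟨x, y, z, hxy, hxz, hyz, rfl⟩ := hs
      obtain ⟨a, b, c, habc, hab, hac, hbc⟩ := graph_triple hxy hxz hyz
      obtain ⟨c', hc'⟩ := Graph.in₀₁_iff.1 hab
      obtain ⟨b', hb'⟩ := Graph.in₀₂_iff.1 hac
      obtain ⟨a', ha'⟩ := Graph.in₁₂_iff.1 hbc
      have h1 := hcl _ (hTH hc') _ (hTH hb') _ (hTH ha')
      simp only [(hp a a').1, (hq b b').2.1, (hr c c').2.2] at h1
      exact Finset.mem_map.2 ⟨(a, b, c), h1, habc⟩
    exact (Finset.card_le_card hsub).trans (Finset.card_map _).le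
  have hle' : (((graph T).cliqueFinset 3).card : ℝ) ≤ H.card := by exact_mod_cast hle
  have htriv : (H.card : ℝ) ≤ (M : ℝ) ^ 2 * e := by
    have h1 := trivial_bound hH
    have h2 : H.card ≤ M ^ 2 * e := by
      refine h1.trans (Nat.mul_le_mul_right _ ?_)
      rw [sq]
      exact Nat.mul_le_mul (by omega) (by omega)
    exact_mod_cast h2
  have hn1 : (1 : ℝ) ≤ n := by
    have : 1 ≤ n := by omega
    exact_mod_cast this
  have hMpos : (0 : ℝ) < M := by
    rcases Nat.eq_zero_or_pos M with h0 | h0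
    · exfalso
      rw [h0] at htriv
      have : 0 < ε * (n : ℝ) ^ 2 := by positivity
      simp at htriv
      rw [htriv] at hcon
      simp at hcon
      linarith
    · exact_mod_cast h0
  have hMb : (M : ℝ) ≤ e / b := by
    rw [le_div_iff₀ hb0]
    have h1 : b * (M : ℝ) ^ 3 ≤ (M : ℝ) ^ 2 * e := (hcl3.trans hle').trans htriv
    have e0 : (M : ℝ) ^ 2 * (M * b) = b * (M : ℝ) ^ 3 := by ring
    have h2 : (M : ℝ) ^ 2 * (M * b) ≤ (M : ℝ) ^ 2 * e := by rw [e0]; exact h1
    exact le_of_mul_le_mul_left h2 (by positivity)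
  have h1 : ε * (n : ℝ) ^ 2 < (e / b) ^ 2 * e := by
    have h2 : (M : ℝ) ^ 2 ≤ (e / b) ^ 2 := pow_le_pow_left₀ hMpos.le hMb 2
    have h3 : (M : ℝ) ^ 2 * e ≤ (e / b) ^ 2 * e := mul_le_mul_of_nonneg_right h2 he1.le
    linarith
  have h2 : (N : ℝ) ≤ n := by
    have : N ≤ n := by omega
    exact_mod_cast this
  have h3 : (e : ℝ) * ((e : ℝ) / b) ^ 2 < ε * n := by
    have h4 := hN.trans_le h2
    rw [div_lt_iff₀ hε] at h4
    linarith
  have h4 : ε * (n : ℝ) ≤ ε * (n : ℝ) ^ 2 := by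
    apply mul_le_mul_of_nonneg_left _ hε.le
    nlinarith
  linarith

end majority

/-! ### The example -/

section example_

variable (m : ℕ) [NeZero m]

/-- the triangles of the complete tripartite graph, as triples of edges -/
def Tri : Finset ((ZMod m × ZMod m) × (ZMod m × ZMod m) × (ZMod m × ZMod m)) :=
  (Finset.univ : Finset (ZMod m × ZMod m × ZMod m)).map
    ⟨fun t => ((t.1, t.2.2), (t.2.1, t.2.2), (t.1, t.2.1)), by
      rintro ⟨a, b, c⟩ ⟨a', b', c'⟩ h
      simp only [Prod.mk.injEq] at h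
      obtain ⟨⟨rfl, rfl⟩, ⟨rfl, -⟩, -⟩ := h
      rfl⟩

lemma card_Tri : (Tri m).card = m ^ 3 := by
  unfold Tri
  rw [Finset.card_map, Finset.card_univ, Fintype.card_prod, Fintype.card_prod, ZMod.card]
  ring

/-- the affine operation `(a, b, c) ↦ a - b + c` -/
def aff {α : Type*} [AddCommGroup α] (a b c : α) : α := a - b + c

lemma aff_maltsev {α : Type*} [AddCommGroup α] : IsMaltsev (aff (α := α)) := by
  intro a b
  constructor
  · unfold aff; abel
  · unfold aff; abel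

lemma Tri_closed : Closed3 aff aff aff (Tri m) := by
  intro a ha b hb c hc
  unfold Tri at *
  obtain ⟨⟨a1, a2, a3⟩, -, rfl⟩ := Finset.mem_map.1 ha
  obtain ⟨⟨b1, b2, b3⟩, -, rfl⟩ := Finset.mem_map.1 hb
  obtain ⟨⟨c1, c2, c3⟩, -, rfl⟩ := Finset.mem_map.1 hc
  exact Finset.mem_map.2 ⟨(aff a1 b1 c1, aff a2 b2 c2, aff a3 b3 c3), Finset.mem_univ _, rfl⟩

lemma card_image_inst {α β : Type*} (i j : DecidableEq β) (f : α → β) (s : Finset α) :
    (@Finset.image α β i f s).card = (@Finset.image α β j f s).card := by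
  rw [Subsingleton.elim i j]

lemma spanned_eq {X : Type u} {Y : Type v} {Z : Type w} [i : DecidableEq X] [j : DecidableEq Y]
    [k : DecidableEq Z] (T : Finset (X × Y × Z)) : spanned T =
      (T.image fun e => e.1).card + (T.image fun e => e.2.1).card + (T.image fun e => e.2.2).card := by
  unfold spanned
  rw [card_image_inst _ i, card_image_inst _ j, card_image_inst _ k]

/-- Loomis-Whitney -/
lemma loomis {A B C : Type*} [DecidableEq A] [DecidableEq B] [DecidableEq C]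
    (T : Finset (A × B × C)) :
    T.card ^ 2 ≤ (T.image fun t => (t.1, t.2.1)).card *
      ((T.image fun t => (t.1, t.2.2)).card * (T.image fun t => (t.2.1, t.2.2)).card) := by
  have h1 : T.card = ∑ b ∈ T.image (fun t => (t.1, t.2.1)),
      (T.filter fun t => (t.1, t.2.1) = b).card := Finset.card_eq_sum_card_image _ _
  have h2 : T.card ^ 2 ≤ (T.image fun t => (t.1, t.2.1)).card *
      ∑ b ∈ T.image (fun t => (t.1, t.2.1)), (T.filter fun t => (t.1, t.2.1) = b).card ^ 2 := by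
    conv_lhs => rw [h1]
    exact sq_sum_le_card_mul_sum_sq
  refine h2.trans (Nat.mul_le_mul_left _ ?_)
  have h3 : ∑ b ∈ T.image (fun t => (t.1, t.2.1)), (T.filter fun t => (t.1, t.2.1) = b).card ^ 2 =
      ((T.image fun t => (t.1, t.2.1)).sigma fun b =>
        (T.filter fun t => (t.1, t.2.1) = b) ×ˢ (T.filter fun t => (t.1, t.2.1) = b)).card := by
    rw [Finset.card_sigma]
    exact Finset.sum_congr rfl fun b _ => by rw [Finset.card_product, sq]
  rw [h3, ← Finset.card_product]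
  apply Finset.card_le_card_of_injOn
    (fun s => ((s.2.1.1, s.2.1.2.2), (s.2.2.2.1, s.2.2.2.2)))
  · rintro ⟨b, s, t⟩ hs
    obtain ⟨_, h5⟩ := Finset.mem_sigma.1 (Finset.mem_coe.1 hs)
    obtain ⟨h6, h7⟩ := Finset.mem_product.1 h5
    obtain ⟨h6, _⟩ := Finset.mem_filter.1 h6
    obtain ⟨h7, _⟩ := Finset.mem_filter.1 h7
    exact Finset.mem_coe.2 (Finset.mem_product.2 ⟨Finset.mem_image.2 ⟨s, h6, rfl⟩,
      Finset.mem_image.2 ⟨t, h7, rfl⟩⟩)
  · rintro ⟨b, ⟨s1, s2, s3⟩, ⟨t1, t2, t3⟩⟩ hs ⟨b', ⟨s1', s2', s3'⟩, ⟨t1', t2', t3'⟩⟩ ht hst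
    obtain ⟨_, k5⟩ := Finset.mem_sigma.1 (Finset.mem_coe.1 hs)
    obtain ⟨k6, k7⟩ := Finset.mem_product.1 k5
    have l6 : (s1, s2) = b := (Finset.mem_filter.1 k6).2
    have l7 : (t1, t2) = b := (Finset.mem_filter.1 k7).2
    obtain ⟨_, k5'⟩ := Finset.mem_sigma.1 (Finset.mem_coe.1 ht)
    obtain ⟨k6', k7'⟩ := Finset.mem_product.1 k5'
    have l6' : (s1', s2') = b' := (Finset.mem_filter.1 k6').2
    have l7' : (t1', t2') = b' := (Finset.mem_filter.1 k7').2
    simp only [Prod.mk.injEq] at hst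
    obtain ⟨⟨a1, a2⟩, a3, a4⟩ := hst
    subst a1 a2 a3 a4
    clear k5 k6 k7 k5' k6' k7' hs ht
    subst l6
    subst l6'
    obtain ⟨a5, a6⟩ := Prod.mk.inj l7
    obtain ⟨a7, a8⟩ := Prod.mk.inj l7'
    subst a5
    subst a6
    subst a8
    subst a7
    rfl

lemma Tri_sparse {e : ℕ} (h3 : 3 ≤ e) (h16 : e ≤ 16) : Sparse e (Tri m) := by
  intro T hT hTc
  by_contra hcon
  push Not at hcon
  -- pull back
  set f : ZMod m × ZMod m × ZMod m → (ZMod m × ZMod m) × (ZMod m × ZMod m) × (ZMod m × ZMod m) :=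
    fun t => ((t.1, t.2.2), (t.2.1, t.2.2), (t.1, t.2.1)) with hf
  have hinj : Function.Injective f := by
    rintro ⟨a, b, c⟩ ⟨a', b', c'⟩ h
    simp only [hf, Prod.mk.injEq] at h
    obtain ⟨⟨rfl, rfl⟩, ⟨rfl, -⟩, -⟩ := h
    rfl
  obtain ⟨S, hS⟩ : ∃ S : Finset (ZMod m × ZMod m × ZMod m), S.image f = T := by
    refine ⟨Finset.univ.filter fun s => f s ∈ T, ?_⟩
    ext t
    constructor
    · intro ht
      obtain ⟨s, hs, rfl⟩ := Finset.mem_image.1 ht
      exact (Finset.mem_filter.1 hs).2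
    · intro ht
      have h1 := hT ht
      unfold Tri at h1
      obtain ⟨s, -, h2⟩ := Finset.mem_map.1 h1
      have h3 : f s = t := h2
      exact Finset.mem_image.2 ⟨s, Finset.mem_filter.2 ⟨Finset.mem_univ _, by rw [h3]; exact ht⟩, h3⟩
  have hSc : S.card = e := by
    rw [← hTc, ← hS, Finset.card_image_of_injective _ hinj]
  have hL := loomis S
  rw [hSc] at hL
  rw [spanned_eq] at hcon
  have e1 : (T.image fun t => t.1) = S.image fun t => (t.1, t.2.2) := by
    rw [← hS, Finset.image_image]; rfl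
  have e2 : (T.image fun t => t.2.1) = S.image fun t => (t.2.1, t.2.2) := by
    rw [← hS, Finset.image_image]; rfl
  have e3 : (T.image fun t => t.2.2) = S.image fun t => (t.1, t.2.1) := by
    rw [← hS, Finset.image_image]; rfl
  rw [e1, e2, e3] at hcon
  generalize (S.image fun t => (t.1, t.2.2)).card = a at hL hcon
  generalize (S.image fun t => (t.2.1, t.2.2)).card = b at hL hcon
  generalize (S.image fun t => (t.1, t.2.1)).card = c at hL hcon
  have hamgm : 27 * (c * (a * b)) ≤ (a + b + c) ^ 3 := by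
    zify
    have ha : (0 : ℤ) ≤ a := Int.natCast_nonneg _
    have hb : (0 : ℤ) ≤ b := Int.natCast_nonneg _
    have hc : (0 : ℤ) ≤ c := Int.natCast_nonneg _
    nlinarith [mul_nonneg ha (sq_nonneg ((b : ℤ) - c)), mul_nonneg hb (sq_nonneg ((a : ℤ) - c)),
      mul_nonneg hc (sq_nonneg ((a : ℤ) - b)),
      mul_nonneg (add_nonneg (add_nonneg ha hb) hc) (add_nonneg (add_nonneg
        (sq_nonneg ((a : ℤ) - b)) (sq_nonneg ((b : ℤ) - c))) (sq_nonneg ((a : ℤ) - c)))]
  have h5 : (a + b + c) ^ 3 ≤ (e + 3) ^ 3 := Nat.pow_le_pow_left hcon 3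
  have h6 : 27 * e ^ 2 ≤ (e + 3) ^ 3 := by
    calc 27 * e ^ 2 ≤ 27 * (c * (a * b)) := Nat.mul_le_mul_left _ hL
      _ ≤ _ := hamgm.trans h5
  interval_cases e <;> revert h6 <;> decide

end example_

end Pool.Agent.Q264.Bes
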