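import Mathlib

/-!
Sparse triple systems with two rectangular projections have at most `n ^ (3/2)` triples.
-/

set_option autoImplicit false

namespace Pool.Agent.Q264.Bes

open Finset

universe u v w

variable {X : Type u} {Y : Type v} {Z : Type w}

open Classical in
/-- The number of vertices spanned by a set of triples: the number of its first coordinates, plus the
number of its second coordinates, plus the number of its third coordinates. -/
noncomputable def spanned (T : Finset (X × Y × Z)) : ℕ :=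
  (T.image fun e => e.1).card + (T.image fun e => e.2.1).card + (T.image fun e => e.2.2).card

/-- Any `e` triples of `H` span more than `e + 3` vertices. -/
def Sparse (e : ℕ) (H : Finset (X × Y × Z)) : Prop :=
  ∀ T : Finset (X × Y × Z), T ⊆ H → T.card = e → e + 3 < spanned T

open Classical in
lemma two_fib {α β : Type*} (T : Finset α) (f : α → β)
    (h : ∀ s ∈ T, ∃ t ∈ T, t ≠ s ∧ f t = f s) : 2 * (T.image f).card ≤ T.card := by
  rw [Finset.card_eq_sum_card_image f T, mul_comm, ← smul_eq_mul]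
  apply Finset.card_nsmul_le_sum
  intro b hb
  obtain ⟨s, hs, rfl⟩ := Finset.mem_image.1 hb
  obtain ⟨t, ht, hne, hts⟩ := h s hs
  have h1 : ({s, t} : Finset α) ⊆ T.filter fun x => f x = f s := by
    intro x hx
    rcases Finset.mem_insert.1 hx with rfl | hx
    · exact Finset.mem_filter.2 ⟨hs, rfl⟩
    · rw [Finset.mem_singleton] at hx
      subst hx
      exact Finset.mem_filter.2 ⟨ht, hts⟩
  calc 2 = ({s, t} : Finset α).card := (Finset.card_pair hne.symm).symm
    _ ≤ _ := Finset.card_le_card h1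

open Classical in
/-- In a multigraph of minimum degree two there are, for every `j`, some `j` edges with at most
`j + 1` vertices. -/
lemma grow (S : Finset (X × Y × Z))
    (hy : ∀ s ∈ S, ∃ t ∈ S, t ≠ s ∧ t.2.1 = s.2.1)
    (hz : ∀ s ∈ S, ∃ t ∈ S, t ≠ s ∧ t.2.2 = s.2.2) :
    ∀ j ≤ S.card, ∃ T ⊆ S, T.card = j ∧
      (T.image fun e => e.2.1).card + (T.image fun e => e.2.2).card ≤ j + 1 := by
  intro j
  induction j with
  | zero =>
    intro _
    exact ⟨∅, Finset.empty_subset _, rfl, by simp⟩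
  | succ j ih =>
    intro hj
    obtain ⟨T, hTS, hTc, hv⟩ := ih (by omega)
    have hex : (S \ T).Nonempty := by
      rw [← Finset.card_pos, Finset.card_sdiff_of_subset hTS]
      omega
    have ins : ∀ s, (insert s T).image (fun e => e.2.1) = insert s.2.1 (T.image fun e => e.2.1) := by
      intro s
      rw [Finset.image_insert]
    have ins' : ∀ s, (insert s T).image (fun e => e.2.2) = insert s.2.2 (T.image fun e => e.2.2) := by
      intro s
      rw [Finset.image_insert]
    by_cases hcase : ∃ s ∈ S \ T, s.2.1 ∈ (T.image fun e => e.2.1) ∨ s.2.2 ∈ (T.image fun e => e.2.2)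
    · obtain ⟨s, hs, hor⟩ := hcase
      rw [Finset.mem_sdiff] at hs
      refine ⟨insert s T, Finset.insert_subset hs.1 hTS, ?_, ?_⟩
      · rw [Finset.card_insert_of_notMem hs.2, hTc]
      · rw [ins, ins']
        rcases hor with h1 | h1
        · rw [Finset.insert_eq_of_mem h1]
          have := Finset.card_insert_le s.2.2 (T.image fun e => e.2.2)
          omega
        · rw [Finset.insert_eq_of_mem h1]
          have := Finset.card_insert_le s.2.1 (T.image fun e => e.2.1)
          omega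
    · push Not at hcase
      have h1 : 2 * (T.image fun e => e.2.1).card ≤ T.card := by
        apply two_fib
        intro s hs
        obtain ⟨t, ht, hne, hts⟩ := hy s (hTS hs)
        refine ⟨t, ?_, hne, hts⟩
        by_contra htT
        exact (hcase t (Finset.mem_sdiff.2 ⟨ht, htT⟩)).1
          (Finset.mem_image.2 ⟨s, hs, hts.symm⟩)
      have h2 : 2 * (T.image fun e => e.2.2).card ≤ T.card := by
        apply two_fib
        intro s hs
        obtain ⟨t, ht, hne, hts⟩ := hz s (hTS hs)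
        refine ⟨t, ?_, hne, hts⟩
        by_contra htT
        exact (hcase t (Finset.mem_sdiff.2 ⟨ht, htT⟩)).2
          (Finset.mem_image.2 ⟨s, hs, hts.symm⟩)
      obtain ⟨s, hs⟩ := hex
      rw [Finset.mem_sdiff] at hs
      refine ⟨insert s T, Finset.insert_subset hs.1 hTS, ?_, ?_⟩
      · rw [Finset.card_insert_of_notMem hs.2, hTc]
      · rw [ins, ins']
        have h3 := Finset.card_insert_le s.2.1 (T.image fun e => e.2.1)
        have h4 := Finset.card_insert_le s.2.2 (T.image fun e => e.2.2)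
        omega

open Classical in
/-- the `Y`-neighbours of `x` -/
noncomputable def NY (H : Finset (X × Y × Z)) (x : X) : Finset Y :=
  (H.filter fun e => e.1 = x).image fun e => e.2.1

open Classical in
/-- the `Z`-neighbours of `x` -/
noncomputable def NZ (H : Finset (X × Y × Z)) (x : X) : Finset Z :=
  (H.filter fun e => e.1 = x).image fun e => e.2.2

open Classical in
/-- the triples at `x` -/
noncomputable def St (H : Finset (X × Y × Z)) (x : X) : Finset (X × Y × Z) :=
  H.filter fun e => e.1 = x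

lemma mem_St {H : Finset (X × Y × Z)} {x : X} {e : X × Y × Z} : e ∈ St H x ↔ e ∈ H ∧ e.1 = x := by
  classical
  unfold St
  rw [Finset.mem_filter]

lemma mem_NY {H : Finset (X × Y × Z)} {x : X} {y : Y} : y ∈ NY H x ↔ ∃ z, (x, y, z) ∈ H := by
  classical
  unfold NY
  rw [Finset.mem_image]
  constructor
  · rintro ⟨⟨a, b, c⟩, h, rfl⟩
    obtain ⟨h1, h2⟩ := Finset.mem_filter.1 h
    simp only at h2
    subst h2
    exact ⟨c, h1⟩
  · rintro ⟨z, hz⟩
    exact ⟨(x, y, z), Finset.mem_filter.2 ⟨hz, rfl⟩, rfl⟩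

lemma mem_NZ {H : Finset (X × Y × Z)} {x : X} {z : Z} : z ∈ NZ H x ↔ ∃ y, (x, y, z) ∈ H := by
  classical
  unfold NZ
  rw [Finset.mem_image]
  constructor
  · rintro ⟨⟨a, b, c⟩, h, rfl⟩
    obtain ⟨h1, h2⟩ := Finset.mem_filter.1 h
    simp only at h2
    subst h2
    exact ⟨b, h1⟩
  · rintro ⟨y, hy⟩
    exact ⟨(x, y, z), Finset.mem_filter.2 ⟨hy, rfl⟩, rfl⟩

/-- Two vertices with the same neighbours have bounded degree. -/
lemma twins {e : ℕ} {H : Finset (X × Y × Z)} (hH : Sparse e H) {x x' : X} (hne : x ≠ x')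
    (h1 : NY H x = NY H x') (h2 : NZ H x = NZ H x') : (St H x).card + (St H x').card < e := by
  classical
  by_contra hcon
  push Not at hcon
  have hdisj : Disjoint (St H x) (St H x') := by
    rw [Finset.disjoint_left]
    intro a ha hb
    exact hne ((mem_St.1 ha).2.symm.trans (mem_St.1 hb).2)
  set S := St H x ∪ St H x' with hS
  have hSc : S.card = (St H x).card + (St H x').card := Finset.card_union_of_disjoint hdisj
  have hSy : ∀ s ∈ S, ∃ t ∈ S, t ≠ s ∧ t.2.1 = s.2.1 := by
    rintro ⟨a, b, c⟩ hs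
    rcases Finset.mem_union.1 hs with hs | hs
    · obtain ⟨h3, h4⟩ := mem_St.1 hs
      simp only at h4
      subst h4
      have h5 : b ∈ NY H a := mem_NY.2 ⟨c, h3⟩
      rw [h1] at h5
      obtain ⟨z, hz⟩ := mem_NY.1 h5
      refine ⟨(x', b, z), Finset.mem_union_right _ (mem_St.2 ⟨hz, rfl⟩), ?_, rfl⟩
      intro h6
      exact hne (congrArg Prod.fst h6).symm
    · obtain ⟨h3, h4⟩ := mem_St.1 hs
      simp only at h4
      subst h4
      have h5 : b ∈ NY H a := mem_NY.2 ⟨c, h3⟩
      rw [← h1] at h5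
      obtain ⟨z, hz⟩ := mem_NY.1 h5
      refine ⟨(x, b, z), Finset.mem_union_left _ (mem_St.2 ⟨hz, rfl⟩), ?_, rfl⟩
      intro h6
      exact hne (congrArg Prod.fst h6)
  have hSz : ∀ s ∈ S, ∃ t ∈ S, t ≠ s ∧ t.2.2 = s.2.2 := by
    rintro ⟨a, b, c⟩ hs
    rcases Finset.mem_union.1 hs with hs | hs
    · obtain ⟨h3, h4⟩ := mem_St.1 hs
      simp only at h4
      subst h4
      have h5 : c ∈ NZ H a := mem_NZ.2 ⟨b, h3⟩
      rw [h2] at h5
      obtain ⟨z, hz⟩ := mem_NZ.1 h5
      refine ⟨(x', z, c), Finset.mem_union_right _ (mem_St.2 ⟨hz, rfl⟩), ?_, rfl⟩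
      intro h6
      exact hne (congrArg Prod.fst h6).symm
    · obtain ⟨h3, h4⟩ := mem_St.1 hs
      simp only at h4
      subst h4
      have h5 : c ∈ NZ H a := mem_NZ.2 ⟨b, h3⟩
      rw [← h2] at h5
      obtain ⟨z, hz⟩ := mem_NZ.1 h5
      refine ⟨(x, z, c), Finset.mem_union_left _ (mem_St.2 ⟨hz, rfl⟩), ?_, rfl⟩
      intro h6
      exact hne (congrArg Prod.fst h6)
  obtain ⟨T, hTS, hTc, hv⟩ := grow S hSy hSz e (by omega)
  have hTH : T ⊆ H := by
    intro t ht
    rcases Finset.mem_union.1 (hTS ht) with h | h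
    · exact (mem_St.1 h).1
    · exact (mem_St.1 h).1
  have h3 := hH T hTH hTc
  have h4 : (T.image fun e => e.1).card ≤ 2 := by
    calc (T.image fun e => e.1).card ≤ ({x, x'} : Finset X).card := by
          apply Finset.card_le_card
          intro a ha
          obtain ⟨t, ht, rfl⟩ := Finset.mem_image.1 ha
          rcases Finset.mem_union.1 (hTS ht) with h | h
          · rw [(mem_St.1 h).2]; exact Finset.mem_insert_self _ _
          · rw [(mem_St.1 h).2]; exact Finset.mem_insert_of_mem (Finset.mem_singleton_self _)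
      _ ≤ 2 := Finset.card_le_two
  unfold spanned at h3
  omega

/-- bounded codegrees -/
lemma codeg {e : ℕ} {H : Finset (X × Y × Z)} (hH : Sparse e H) (S : Finset (X × Y × Z))
    (hS : S ⊆ H) (x : X) (y : Y) (hx : ∀ s ∈ S, s.1 = x ∧ s.2.1 = y) : S.card < e := by
  classical
  by_contra hcon
  push Not at hcon
  obtain ⟨T, hT, hTc⟩ := Finset.exists_subset_card_eq hcon
  have h1 := hH T (hT.trans hS) hTc
  have h2 : (T.image fun e => e.1).card ≤ 1 := by
    rw [Finset.card_le_one]
    intro a ha b hb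
    obtain ⟨s, hs, rfl⟩ := Finset.mem_image.1 ha
    obtain ⟨t, ht, rfl⟩ := Finset.mem_image.1 hb
    rw [(hx s (hT hs)).1, (hx t (hT ht)).1]
  have h3 : (T.image fun e => e.2.1).card ≤ 1 := by
    rw [Finset.card_le_one]
    intro a ha b hb
    obtain ⟨s, hs, rfl⟩ := Finset.mem_image.1 ha
    obtain ⟨t, ht, rfl⟩ := Finset.mem_image.1 hb
    rw [(hx s (hT hs)).2, (hx t (hT ht)).2]
  have h4 : (T.image fun e => e.2.2).card ≤ T.card := Finset.card_image_le
  unfold spanned at h1
  omega

lemma codeg' {e : ℕ} {H : Finset (X × Y × Z)} (hH : Sparse e H) (S : Finset (X × Y × Z))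
    (hS : S ⊆ H) (x : X) (z : Z) (hx : ∀ s ∈ S, s.1 = x ∧ s.2.2 = z) : S.card < e := by
  classical
  by_contra hcon
  push Not at hcon
  obtain ⟨T, hT, hTc⟩ := Finset.exists_subset_card_eq hcon
  have h1 := hH T (hT.trans hS) hTc
  have h2 : (T.image fun e => e.1).card ≤ 1 := by
    rw [Finset.card_le_one]
    intro a ha b hb
    obtain ⟨s, hs, rfl⟩ := Finset.mem_image.1 ha
    obtain ⟨t, ht, rfl⟩ := Finset.mem_image.1 hb
    rw [(hx s (hT hs)).1, (hx t (hT ht)).1]
  have h3 : (T.image fun e => e.2.2).card ≤ 1 := by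
    rw [Finset.card_le_one]
    intro a ha b hb
    obtain ⟨s, hs, rfl⟩ := Finset.mem_image.1 ha
    obtain ⟨t, ht, rfl⟩ := Finset.mem_image.1 hb
    rw [(hx s (hT hs)).2, (hx t (hT ht)).2]
  have h4 : (T.image fun e => e.2.1).card ≤ T.card := Finset.card_image_le
  unfold spanned at h1
  omega

lemma codeg'' {e : ℕ} {H : Finset (X × Y × Z)} (hH : Sparse e H) (S : Finset (X × Y × Z))
    (hS : S ⊆ H) (y : Y) (z : Z) (hx : ∀ s ∈ S, s.2.1 = y ∧ s.2.2 = z) : S.card < e := by
  classical
  by_contra hcon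
  push Not at hcon
  obtain ⟨T, hT, hTc⟩ := Finset.exists_subset_card_eq hcon
  have h1 := hH T (hT.trans hS) hTc
  have h2 : (T.image fun e => e.2.1).card ≤ 1 := by
    rw [Finset.card_le_one]
    intro a ha b hb
    obtain ⟨s, hs, rfl⟩ := Finset.mem_image.1 ha
    obtain ⟨t, ht, rfl⟩ := Finset.mem_image.1 hb
    rw [(hx s (hT hs)).1, (hx t (hT ht)).1]
  have h3 : (T.image fun e => e.2.2).card ≤ 1 := by
    rw [Finset.card_le_one]
    intro a ha b hb
    obtain ⟨s, hs, rfl⟩ := Finset.mem_image.1 ha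
    obtain ⟨t, ht, rfl⟩ := Finset.mem_image.1 hb
    rw [(hx s (hT hs)).2, (hx t (hT ht)).2]
  have h4 : (T.image fun e => e.1).card ≤ T.card := Finset.card_image_le
  unfold spanned at h1
  omega

/-- The degree is at most `e - 1` times the number of neighbours in `Y`. -/
lemma deg_le_Y {e : ℕ} {H : Finset (X × Y × Z)} (hH : Sparse e H) (x : X) :
    (St H x).card ≤ (NY H x).card * (e - 1) := by
  classical
  have h1 : (St H x).card = ∑ b ∈ (St H x).image (fun t => t.2.1),
      ((St H x).filter fun t => t.2.1 = b).card := Finset.card_eq_sum_card_image _ _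
  rw [h1]
  have h2 : (St H x).image (fun t => t.2.1) = NY H x := rfl
  rw [h2, ← smul_eq_mul]
  apply Finset.sum_le_card_nsmul
  intro b _
  have := codeg hH ((St H x).filter fun t => t.2.1 = b)
    (fun s hs => (mem_St.1 (Finset.mem_filter.1 hs).1).1) x b
    (fun s hs => ⟨(mem_St.1 (Finset.mem_filter.1 hs).1).2, (Finset.mem_filter.1 hs).2⟩)
  omega

lemma deg_le_Z {e : ℕ} {H : Finset (X × Y × Z)} (hH : Sparse e H) (x : X) :
    (St H x).card ≤ (NZ H x).card * (e - 1) := by
  classical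
  have h1 : (St H x).card = ∑ b ∈ (St H x).image (fun t => t.2.2),
      ((St H x).filter fun t => t.2.2 = b).card := Finset.card_eq_sum_card_image _ _
  rw [h1]
  have h2 : (St H x).image (fun t => t.2.2) = NZ H x := rfl
  rw [h2, ← smul_eq_mul]
  apply Finset.sum_le_card_nsmul
  intro b _
  have := codeg' hH ((St H x).filter fun t => t.2.2 = b)
    (fun s hs => (mem_St.1 (Finset.mem_filter.1 hs).1).1) x b
    (fun s hs => ⟨(mem_St.1 (Finset.mem_filter.1 hs).1).2, (Finset.mem_filter.1 hs).2⟩)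
  omega

/-- The projection of `H` to `X × Y` is rectangular. -/
def RectY (H : Finset (X × Y × Z)) : Prop :=
  ∀ x x' : X, ∀ y : Y, y ∈ NY H x → y ∈ NY H x' → NY H x = NY H x'

/-- The projection of `H` to `X × Z` is rectangular. -/
def RectZ (H : Finset (X × Y × Z)) : Prop :=
  ∀ x x' : X, ∀ z : Z, z ∈ NZ H x → z ∈ NZ H x' → NZ H x = NZ H x'

/-- **The bound** for two rectangular projections. -/
theorem rect_bound [Fintype X] [Fintype Y] [Fintype Z] {e : ℕ} (he : 1 ≤ e)
    {H : Finset (X × Y × Z)} (hH : Sparse e H) (hY : RectY H) (hZ : RectZ H) :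
    (H.card : ℝ) ≤ ((e : ℝ) - 1) * (Fintype.card X +
      Real.sqrt (Fintype.card X * Fintype.card Y * Fintype.card Z)) := by
  classical
  set d : X → ℕ := fun x => (St H x).card with hd
  have hsum : H.card = ∑ x : X, d x := by
    rw [Finset.card_eq_sum_card_fiberwise (f := fun t : X × Y × Z => t.1) (t := Finset.univ)
      (fun _ _ => Finset.mem_coe.2 (Finset.mem_univ _))]
    rfl
  set bad : X → Prop := fun x => ∃ x', x ≠ x' ∧ NY H x = NY H x' ∧ NZ H x = NZ H x' with hbad
  set G : Finset X := Finset.univ.filter fun x => ¬ bad x with hG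
  set B : Finset X := Finset.univ.filter bad with hB
  have hsplit : ∑ x : X, d x = ∑ x ∈ B, d x + ∑ x ∈ G, d x :=
    (Finset.sum_filter_add_sum_filter_not _ _ _).symm
  have h1 : ∑ x ∈ B, d x ≤ Fintype.card X * (e - 1) := by
    calc ∑ x ∈ B, d x ≤ B.card • (e - 1) := by
          apply Finset.sum_le_card_nsmul
          intro x hx
          obtain ⟨x', hne, h2, h3⟩ := (Finset.mem_filter.1 hx).2
          have := twins hH hne h2 h3
          simp only [hd]
          omega
      _ ≤ Fintype.card X * (e - 1) := by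
          rw [smul_eq_mul]
          exact Nat.mul_le_mul_right _ (Finset.card_le_univ _)
  have h2 : ∑ x ∈ G, (NY H x).card * (NZ H x).card ≤ Fintype.card Y * Fintype.card Z := by
    have h3 : ∑ x ∈ G, (NY H x).card * (NZ H x).card =
        (G.sigma fun x => (NY H x) ×ˢ (NZ H x)).card := by
      rw [Finset.card_sigma]
      exact Finset.sum_congr rfl fun x _ => (Finset.card_product _ _).symm
    rw [h3, ← Fintype.card_prod, ← Finset.card_univ]
    apply Finset.card_le_card_of_injOn (fun p => p.2)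
    · intro p _
      exact Finset.mem_coe.2 (Finset.mem_univ _)
    · rintro ⟨x, y, z⟩ hp ⟨x', y', z'⟩ hq hpq
      obtain ⟨hx, hyz⟩ := Finset.mem_sigma.1 (Finset.mem_coe.1 hp)
      obtain ⟨hx', hyz'⟩ := Finset.mem_sigma.1 (Finset.mem_coe.1 hq)
      obtain ⟨hy, hz⟩ := Finset.mem_product.1 hyz
      obtain ⟨hy', hz'⟩ := Finset.mem_product.1 hyz'
      simp only at hy hz hy' hz' hx hx' hpq
      obtain ⟨rfl, rfl⟩ := Prod.mk.inj hpq
      have h4 := hY x x' y hy hy'
      have h5 := hZ x x' z hz hz'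
      by_cases h6 : x = x'
      · subst h6; rfl
      · exact absurd ⟨x', h6, h4, h5⟩ (Finset.mem_filter.1 hx).2
  have he1 : ((e - 1 : ℕ) : ℝ) = (e : ℝ) - 1 := by rw [Nat.cast_sub he, Nat.cast_one]
  have he0 : (0 : ℝ) ≤ (e : ℝ) - 1 := by rw [← he1]; exact Nat.cast_nonneg _
  have h3 : ((∑ x ∈ G, d x : ℕ) : ℝ) ≤ ((e : ℝ) - 1) *
      Real.sqrt (Fintype.card X * Fintype.card Y * Fintype.card Z) := by
    have h4 : ((∑ x ∈ G, d x : ℕ) : ℝ) ^ 2 ≤ ((e : ℝ) - 1) ^ 2 *
        (Fintype.card X * Fintype.card Y * Fintype.card Z) := by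
      have h5 : (∑ x ∈ G, d x) ^ 2 ≤ G.card * ∑ x ∈ G, d x ^ 2 := sq_sum_le_card_mul_sum_sq
      have h6 : ∑ x ∈ G, d x ^ 2 ≤ (e - 1) ^ 2 * (Fintype.card Y * Fintype.card Z) := by
        calc ∑ x ∈ G, d x ^ 2 ≤ ∑ x ∈ G, (e - 1) ^ 2 * ((NY H x).card * (NZ H x).card) := by
              apply Finset.sum_le_sum
              intro x _
              calc d x ^ 2 = d x * d x := sq _
                _ ≤ ((NY H x).card * (e - 1)) * ((NZ H x).card * (e - 1)) :=
                  Nat.mul_le_mul (deg_le_Y hH x) (deg_le_Z hH x)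
                _ = _ := by ring
          _ = (e - 1) ^ 2 * ∑ x ∈ G, ((NY H x).card * (NZ H x).card) := by
              rw [Finset.mul_sum]
          _ ≤ _ := Nat.mul_le_mul_left _ h2
      have h7 : (∑ x ∈ G, d x) ^ 2 ≤
          Fintype.card X * ((e - 1) ^ 2 * (Fintype.card Y * Fintype.card Z)) :=
        h5.trans (Nat.mul_le_mul (Finset.card_le_univ _) h6)
      have h8 : (((∑ x ∈ G, d x) ^ 2 : ℕ) : ℝ) ≤
          ((Fintype.card X * ((e - 1) ^ 2 * (Fintype.card Y * Fintype.card Z)) : ℕ) : ℝ) := by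
        exact_mod_cast h7
      rw [Nat.cast_pow, Nat.cast_mul, Nat.cast_mul, Nat.cast_pow, Nat.cast_mul, he1] at h8
      linarith
    have h9 := Real.sqrt_le_sqrt h4
    rw [Real.sqrt_sq (Nat.cast_nonneg _), Real.sqrt_mul (sq_nonneg _), Real.sqrt_sq he0] at h9
    exact h9
  have h10 : ((∑ x ∈ B, d x : ℕ) : ℝ) ≤ ((e : ℝ) - 1) * Fintype.card X := by
    have h11 : ((∑ x ∈ B, d x : ℕ) : ℝ) ≤ ((Fintype.card X * (e - 1) : ℕ) : ℝ) := by
      exact_mod_cast h1
    rw [Nat.cast_mul, he1] at h11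
    linarith
  rw [hsum, hsplit, Nat.cast_add, mul_add]
  exact add_le_add h10 h3

/-! ### Operations -/

/-- A Mal'tsev operation: `p a a b = b` and `p b a a = b`. -/
def IsMaltsev {α : Type*} (p : α → α → α → α) : Prop := ∀ a b, p a a b = b ∧ p b a a = b

/-- A majority operation: the value is `a` if two of the arguments are `a`. -/
def IsMajority {α : Type*} (p : α → α → α → α) : Prop :=
  ∀ a b, p a a b = a ∧ p a b a = a ∧ p b a a = a

/-- `H` is closed under the componentwise operation. -/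
def Closed3 (p : X → X → X → X) (q : Y → Y → Y → Y) (r : Z → Z → Z → Z)
    (H : Finset (X × Y × Z)) : Prop :=
  ∀ a ∈ H, ∀ b ∈ H, ∀ c ∈ H, (p a.1 b.1 c.1, q a.2.1 b.2.1 c.2.1, r a.2.2 b.2.2 c.2.2) ∈ H

lemma rectY_of_maltsev {p : X → X → X → X} {q : Y → Y → Y → Y} {r : Z → Z → Z → Z}
    {H : Finset (X × Y × Z)} (hp : IsMaltsev p) (hq : IsMaltsev q) (h : Closed3 p q r H) :
    RectY H := by
  have key : ∀ x x' : X, ∀ y : Y, y ∈ NY H x → y ∈ NY H x' → NY H x ⊆ NY H x' := by
    intro x x' y hy hy' y₁ hy₁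
    obtain ⟨z, hz⟩ := mem_NY.1 hy
    obtain ⟨z', hz'⟩ := mem_NY.1 hy'
    obtain ⟨z₁, hz₁⟩ := mem_NY.1 hy₁
    have h1 := h _ hz₁ _ hz _ hz'
    simp only [(hp x x').1, (hq y y₁).2] at h1
    exact mem_NY.2 ⟨_, h1⟩
  intro x x' y hy hy'
  exact Finset.Subset.antisymm (key x x' y hy hy') (key x' x y hy' hy)

lemma rectZ_of_maltsev {p : X → X → X → X} {q : Y → Y → Y → Y} {r : Z → Z → Z → Z}
    {H : Finset (X × Y × Z)} (hp : IsMaltsev p) (hr : IsMaltsev r) (h : Closed3 p q r H) :
    RectZ H := by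
  have key : ∀ x x' : X, ∀ z : Z, z ∈ NZ H x → z ∈ NZ H x' → NZ H x ⊆ NZ H x' := by
    intro x x' z hz hz' z₁ hz₁
    obtain ⟨y, hy⟩ := mem_NZ.1 hz
    obtain ⟨y', hy'⟩ := mem_NZ.1 hz'
    obtain ⟨y₁, hy₁⟩ := mem_NZ.1 hz₁
    have h1 := h _ hy₁ _ hy _ hy'
    simp only [(hp x x').1, (hr z z₁).2] at h1
    exact mem_NZ.2 ⟨_, h1⟩
  intro x x' z hz hz'
  exact Finset.Subset.antisymm (key x x' z hz hz') (key x' x z hz' hz)

end Pool.Agent.Q264.Bes
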