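import Pool.Agent.Q264.Bes.Uni

/-!
Dense increasing triple systems contain dense sets of vertices of every size.
-/

set_option autoImplicit false

namespace Pool.Agent.Q264.Bes

open Finset

universe u v w

variable {X : Type u} {Y : Type v} {Z : Type w}

/-- `H` is the graph of a strictly increasing partial function of two variables: if two different
triples satisfy `x ≤ x'` and `y ≤ y'` then `z < z'`. -/
def Increasing [LinearOrder X] [LinearOrder Y] [LinearOrder Z] (H : Finset (X × Y × Z)) : Prop :=
  ∀ a ∈ H, ∀ b ∈ H, a.1 ≤ b.1 → a.2.1 ≤ b.2.1 → a ≠ b → a.2.2 < b.2.2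

lemma spanned_mono {T T' : Finset (X × Y × Z)} (h : T ⊆ T') : spanned T ≤ spanned T' := by
  classical
  unfold spanned
  exact Nat.add_le_add (Nat.add_le_add (Finset.card_le_card (Finset.image_subset_image h))
    (Finset.card_le_card (Finset.image_subset_image h)))
    (Finset.card_le_card (Finset.image_subset_image h))

section core

variable [LinearOrder X] [LinearOrder Y] [LinearOrder Z]

lemma inc_inj {H : Finset (X × Y × Z)} (h : Increasing H) {a b : X × Y × Z} (ha : a ∈ H)
    (hb : b ∈ H) (h1 : a.1 = b.1) (h2 : a.2.1 = b.2.1) : a = b := by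
  by_contra hne
  exact absurd (h a ha b hb h1.le h2.le hne)
    (not_lt_of_gt (h b hb a ha h1.ge h2.ge (Ne.symm hne)))

lemma card_le_mul {H : Finset (X × Y × Z)} (h : Increasing H) :
    H.card ≤ (H.image fun a => a.1).card * (H.image fun a => a.2.1).card := by
  rw [← Finset.card_product]
  apply Finset.card_le_card_of_injOn (fun a => (a.1, a.2.1))
  · intro a ha
    exact Finset.mem_coe.2 (Finset.mem_product.2 ⟨Finset.mem_image.2 ⟨a, ha, rfl⟩,
      Finset.mem_image.2 ⟨a, ha, rfl⟩⟩)
  · intro a ha b hb hab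
    obtain ⟨h1, h2⟩ := Prod.mk.inj hab
    exact inc_inj h ha hb h1 h2

lemma card_block {A : Type*} (f : A → ℕ) (hf : Function.Injective f) (w i : ℕ) (hw : 1 ≤ w)
    (S : Finset A) (hS : ∀ a ∈ S, f a / w = i) : S.card ≤ w := by
  calc S.card ≤ (Finset.Ico (i * w) (i * w + w)).card := by
        apply Finset.card_le_card_of_injOn f
        · intro a ha
          have h1 := hS a ha
          rw [Finset.mem_coe, Finset.mem_Ico]
          have h2 := Nat.div_add_mod (f a) w
          have h3 := Nat.mod_lt (f a) hw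
          rw [h1, mul_comm] at h2
          omega
        · exact hf.injOn
    _ = w := by rw [Nat.card_Ico]; omega

/-- a dense block -/
theorem mono_core [Fintype Z] {n w : ℕ} (hw : 1 ≤ w) (hwn : w ≤ n) (fX : X → ℕ) (fY : Y → ℕ)
    (hfX : StrictMono fX) (hfY : StrictMono fY) (hX : ∀ x, fX x < n) (hY : ∀ y, fY y < n)
    (hZ : Fintype.card Z ≤ n) {H : Finset (X × Y × Z)} (hinc : Increasing H) {ε : ℝ} (hε : 0 < ε)
    (hH : ε * (n : ℝ) ^ 2 ≤ H.card) : ∃ T ⊆ H, T.Nonempty ∧
      ε * w * spanned T ≤ 12 * T.card ∧ T.card ≤ w * w := by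
  set m : ℕ := n / w + 1 with hm
  set cell : X × Y × Z → ℕ × ℕ := fun a => (fX a.1 / w, fY a.2.1 / w) with hcell
  set C : Finset (ℕ × ℕ) := Finset.range m ×ˢ Finset.range m with hC
  have hmaps : ∀ a ∈ H, cell a ∈ C := by
    intro a _
    simp only [hcell, hC, Finset.mem_product, Finset.mem_range, hm]
    exact ⟨Nat.lt_succ_of_le (Nat.div_le_div_right (hX _).le),
      Nat.lt_succ_of_le (Nat.div_le_div_right (hY _).le)⟩
  have hsum : H.card = ∑ c ∈ C, (H.filter fun a => cell a = c).card :=
    Finset.card_eq_sum_card_fiberwise (fun a ha => hmaps a ha)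
  -- number of vertices
  have hxw : ∀ c : ℕ × ℕ, ((H.filter fun a => cell a = c).image fun a => a.1).card ≤ w := by
    intro c
    apply card_block fX hfX.injective w c.1 hw
    intro x hx
    obtain ⟨a, ha, rfl⟩ := Finset.mem_image.1 hx
    rw [← (Finset.mem_filter.1 ha).2]
  have hyw : ∀ c : ℕ × ℕ, ((H.filter fun a => cell a = c).image fun a => a.2.1).card ≤ w := by
    intro c
    apply card_block fY hfY.injective w c.2 hw
    intro y hy
    obtain ⟨a, ha, rfl⟩ := Finset.mem_image.1 hy
    rw [← (Finset.mem_filter.1 ha).2]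
  have hz : ∑ c ∈ C, ((H.filter fun a => cell a = c).image fun a => a.2.2).card ≤ 2 * m * n := by
    have h1 : ∑ c ∈ C, ((H.filter fun a => cell a = c).image fun a => a.2.2).card =
        (C.sigma fun c => (H.filter fun a => cell a = c).image fun a => a.2.2).card := by
      rw [Finset.card_sigma]
    rw [h1]
    calc (C.sigma fun c => (H.filter fun a => cell a = c).image fun a => a.2.2).card ≤
          ((Finset.range (2 * m)) ×ˢ (Finset.univ : Finset Z)).card := by
          apply Finset.card_le_card_of_injOn (fun p => (p.1.1 + (m - p.1.2), p.2))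
          · rintro ⟨⟨i, j⟩, z⟩ hp
            obtain ⟨h2, _⟩ := Finset.mem_sigma.1 (Finset.mem_coe.1 hp)
            simp only [hC, Finset.mem_product, Finset.mem_range] at h2
            rw [Finset.mem_coe, Finset.mem_product, Finset.mem_range]
            refine ⟨?_, Finset.mem_univ _⟩
            show i + (m - j) < 2 * m
            omega
          · rintro ⟨⟨i, j⟩, z⟩ hp ⟨⟨i', j'⟩, z'⟩ hq hpq
            obtain ⟨h2, h3⟩ := Finset.mem_sigma.1 (Finset.mem_coe.1 hp)
            obtain ⟨h2', h3'⟩ := Finset.mem_sigma.1 (Finset.mem_coe.1 hq)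
            simp only [hC, Finset.mem_product, Finset.mem_range] at h2 h2'
            obtain ⟨a, ha, hza⟩ := Finset.mem_image.1 h3
            obtain ⟨b, hb, hzb⟩ := Finset.mem_image.1 h3'
            obtain ⟨haH, hac⟩ := Finset.mem_filter.1 ha
            obtain ⟨hbH, hbc⟩ := Finset.mem_filter.1 hb
            simp only at hza hzb hac hbc
            have hac1 : fX a.1 / w = i := congrArg Prod.fst hac
            have hac2 : fY a.2.1 / w = j := congrArg Prod.snd hac
            have hbc1 : fX b.1 / w = i' := congrArg Prod.fst hbc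
            have hbc2 : fY b.2.1 / w = j' := congrArg Prod.snd hbc
            obtain ⟨h4, h5⟩ := Prod.mk.inj hpq
            simp only at h4 h5
            subst h5
            have key : ∀ (a b : X × Y × Z), a ∈ H → b ∈ H → fX a.1 / w < fX b.1 / w →
                fY a.2.1 / w < fY b.2.1 / w → a.2.2 = b.2.2 → False := by
              intro a b ha hb h6 h7 h8
              have h9 : fX a.1 < fX b.1 := lt_of_not_ge fun h => absurd h6
                (not_lt_of_ge (Nat.div_le_div_right h))
              have h10 : fY a.2.1 < fY b.2.1 := lt_of_not_ge fun h => absurd h7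
                (not_lt_of_ge (Nat.div_le_div_right h))
              have h11 : a.1 < b.1 := hfX.lt_iff_lt.1 h9
              have h12 : a.2.1 < b.2.1 := hfY.lt_iff_lt.1 h10
              have h13 : a ≠ b := fun h => absurd h11 (by rw [h]; exact lt_irrefl _)
              exact absurd (hinc a ha b hb h11.le h12.le h13) (by rw [h8]; exact lt_irrefl _)
            rcases lt_trichotomy i i' with hlt | heq | hlt
            · exact (key a b haH hbH (by rw [hac1, hbc1]; exact hlt)
                (by rw [hac2, hbc2]; omega) (hza.trans hzb.symm)).elim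
            · subst heq
              have : j = j' := by omega
              subst this
              rfl
            · exact (key b a hbH haH (by rw [hac1, hbc1]; exact hlt)
                (by rw [hac2, hbc2]; omega) (hzb.trans hza.symm)).elim
      _ ≤ 2 * m * n := by
          rw [Finset.card_product, Finset.card_range, Finset.card_univ]
          exact Nat.mul_le_mul_left _ hZ
  have hmw : m * w ≤ 2 * n := by
    rw [hm, add_mul, one_mul]
    have := Nat.div_mul_le_self n w
    omega
  have hspan : ∑ c ∈ C, spanned (H.filter fun a => cell a = c) * w ≤ 12 * n ^ 2 := by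
    have h1 : ∑ c ∈ C, spanned (H.filter fun a => cell a = c) ≤ m * m * (2 * w) + 2 * m * n := by
      calc ∑ c ∈ C, spanned (H.filter fun a => cell a = c) ≤
            ∑ c ∈ C, (2 * w + ((H.filter fun a => cell a = c).image fun a => a.2.2).card) := by
            apply Finset.sum_le_sum
            intro c _
            have h2 := hxw c
            have h3 := hyw c
            rw [spanned_eq]
            omega
        _ = C.card * (2 * w) +
            ∑ c ∈ C, ((H.filter fun a => cell a = c).image fun a => a.2.2).card := by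
            rw [Finset.sum_add_distrib, Finset.sum_const, smul_eq_mul]
        _ ≤ m * m * (2 * w) + 2 * m * n := by
            apply Nat.add_le_add _ hz
            rw [hC, Finset.card_product, Finset.card_range]
    rw [← Finset.sum_mul]
    calc (∑ c ∈ C, spanned (H.filter fun a => cell a = c)) * w ≤
          (m * m * (2 * w) + 2 * m * n) * w := Nat.mul_le_mul_right _ h1
      _ = 2 * ((m * w) * (m * w)) + 2 * (m * w) * n := by ring
      _ ≤ 2 * ((2 * n) * (2 * n)) + 2 * (2 * n) * n := by
          apply Nat.add_le_add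
          · exact Nat.mul_le_mul_left _ (Nat.mul_le_mul hmw hmw)
          · exact Nat.mul_le_mul_right _ (Nat.mul_le_mul_left _ hmw)
      _ = 12 * n ^ 2 := by ring
  by_contra hcon
  push Not at hcon
  have hn0 : (0 : ℝ) < (n : ℝ) ^ 2 := by
    have : 0 < n := by omega
    positivity
  have hHne : H.Nonempty := by
    rw [← Finset.card_pos]
    have : (0 : ℝ) < H.card := lt_of_lt_of_le (by positivity) hH
    exact_mod_cast this
  have hcells : ∀ c ∈ C, 12 * ((H.filter fun a => cell a = c).card : ℝ) ≤
      ε * w * spanned (H.filter fun a => cell a = c) := by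
    intro c _
    by_cases hne : (H.filter fun a => cell a = c).Nonempty
    · by_contra h1
      push Not at h1
      have h2 := hcon _ (Finset.filter_subset _ _) hne h1.le
      have h3 : (H.filter fun a => cell a = c).card ≤ w * w := by
        have hinc' : Increasing (H.filter fun a => cell a = c) := fun a ha b hb =>
          hinc a (Finset.mem_filter.1 ha).1 b (Finset.mem_filter.1 hb).1
        refine (card_le_mul hinc').trans ?_
        exact Nat.mul_le_mul (hxw c) (hyw c)
      omega
    · rw [Finset.not_nonempty_iff_eq_empty] at hne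
      rw [hne]
      simp only [Finset.card_empty, Nat.cast_zero, mul_zero]
      positivity
  obtain ⟨a₀, ha₀⟩ := hHne
  have hstrict : 12 * ((H.filter fun a => cell a = cell a₀).card : ℝ) <
      ε * w * spanned (H.filter fun a => cell a = cell a₀) := by
    by_contra h1
    push Not at h1
    have hmem : a₀ ∈ H.filter fun a => cell a = cell a₀ := Finset.mem_filter.2 ⟨ha₀, Eq.refl (cell a₀)⟩
    have h2 := hcon (H.filter fun a => cell a = cell a₀) (Finset.filter_subset _ _) ⟨a₀, hmem⟩ h1
    have h3 : (H.filter fun a => cell a = cell a₀).card ≤ w * w := by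
      have hinc' : Increasing (H.filter fun a => cell a = cell a₀) := fun a ha b hb =>
        hinc a (Finset.mem_filter.1 ha).1 b (Finset.mem_filter.1 hb).1
      refine (card_le_mul hinc').trans ?_
      exact Nat.mul_le_mul (hxw _) (hyw _)
    omega
  have h1 : ∑ c ∈ C, 12 * ((H.filter fun a => cell a = c).card : ℝ) <
      ∑ c ∈ C, ε * w * spanned (H.filter fun a => cell a = c) :=
    Finset.sum_lt_sum hcells ⟨cell a₀, hmaps a₀ ha₀, hstrict⟩
  rw [← Finset.mul_sum] at h1
  have h2 : ∑ c ∈ C, ((H.filter fun a => cell a = c).card : ℝ) = H.card := by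
    rw [hsum]; push_cast; rfl
  have h3 : ∑ c ∈ C, ε * w * spanned (H.filter fun a => cell a = c) ≤ ε * (12 * (n : ℝ) ^ 2) := by
    have h4 : ∑ c ∈ C, ε * w * (spanned (H.filter fun a => cell a = c) : ℝ) =
        ε * ∑ c ∈ C, ((spanned (H.filter fun a => cell a = c) : ℝ) * w) := by
      rw [Finset.mul_sum]
      exact Finset.sum_congr rfl fun c _ => by ring
    rw [h4]
    apply mul_le_mul_of_nonneg_left _ hε.le
    exact_mod_cast hspan
  rw [h2] at h1
  linarith

end core

/-- the rank in a finite linear order -/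
lemma exists_rank (A : Type*) [LinearOrder A] [Fintype A] {n : ℕ} (hn : Fintype.card A ≤ n) :
    ∃ f : A → ℕ, StrictMono f ∧ ∀ a, f a < n := by
  classical
  have e := Fintype.orderIsoFinOfCardEq A rfl
  refine ⟨fun a => (e.symm a : ℕ), ?_, ?_⟩
  · intro a b hab
    exact e.symm.strictMono hab
  · intro a
    exact lt_of_lt_of_le (e.symm a).2 hn

/-- **Dense increasing systems are dense at every scale.** -/
theorem mono_dense [LinearOrder X] [LinearOrder Y] [LinearOrder Z] [Fintype X] [Fintype Y]
    [Fintype Z] {n k : ℕ} (hX : Fintype.card X ≤ n) (hY : Fintype.card Y ≤ n)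
    (hZ : Fintype.card Z ≤ n) (hk : 3 ≤ k) (hkn : k ≤ n) {ε : ℝ} (hε : 0 < ε)
    {H : Finset (X × Y × Z)} (hinc : Increasing H) (hH : ε * (n : ℝ) ^ 2 ≤ H.card) :
    ∃ T ⊆ H, spanned T ≤ k ∧ ε ^ 4 * (k : ℝ) ^ 2 / 20736 ≤ T.card := by
  obtain ⟨fX, hfX, hfX'⟩ := exists_rank X hX
  obtain ⟨fY, hfY, hfY'⟩ := exists_rank Y hY
  have hn0 : (0 : ℝ) < (n : ℝ) ^ 2 := by
    have : 0 < n := by omega
    positivity
  have hHpos : (0 : ℝ) < H.card := lt_of_lt_of_le (by positivity) hH
  have hε1 : ε ≤ 1 := by
    have h1 : H.card ≤ n * n := by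
      refine (card_le_mul hinc).trans (Nat.mul_le_mul ?_ ?_)
      · exact (Finset.card_le_univ _).trans hX
      · exact (Finset.card_le_univ _).trans hY
    have h2 : (H.card : ℝ) ≤ (n : ℝ) ^ 2 := by
      rw [sq]; exact_mod_cast h1
    by_contra h3
    push Not at h3
    nlinarith
  have hk0 : (0 : ℝ) < k := by
    have : 0 < k := by omega
    exact_mod_cast this
  by_cases hbig : 12 ≤ ε * k
  · set t : ℝ := ε * k / 12 with ht
    have ht1 : 1 ≤ t := by rw [ht, le_div_iff₀ (by norm_num)]; linarith
    set w : ℕ := ⌊t⌋₊ with hw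
    have hw1 : 1 ≤ w := Nat.le_floor (by exact_mod_cast ht1)
    have hwt : (w : ℝ) ≤ t := Nat.floor_le (by linarith)
    have htw : t < w + 1 := Nat.lt_floor_add_one t
    have hw1r : (1 : ℝ) ≤ w := by exact_mod_cast hw1
    have hwk : w ≤ k := by
      have : (w : ℝ) ≤ k := by
        calc (w : ℝ) ≤ t := hwt
          _ ≤ k := by rw [ht, div_le_iff₀ (by norm_num)]; nlinarith
      exact_mod_cast this
    obtain ⟨T, hTH, hTne, hT1, hT2⟩ := mono_core hw1 (hwk.trans hkn) fX fY hfX hfY hfX' hfY' hZ hinc
      hε hH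
    have hTpos : (0 : ℝ) < T.card := by
      exact_mod_cast Finset.card_pos.2 hTne
    have hT2' : (T.card : ℝ) ≤ w * w := by exact_mod_cast hT2
    refine ⟨T, hTH, ?_, ?_⟩
    · have h1 : ε * w * spanned T ≤ 12 * (w * w) := by linarith
      have h2 : ε * (spanned T : ℝ) ≤ 12 * w := by
        have h3 : (w : ℝ) * (ε * spanned T) ≤ w * (12 * w) := by linarith
        exact le_of_mul_le_mul_left h3 (by linarith)
      have h3 : ε * (spanned T : ℝ) ≤ ε * k := by
        have : 12 * (w : ℝ) ≤ ε * k := by rw [ht] at hwt; linarith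
        linarith
      have h4 : (spanned T : ℝ) ≤ k := le_of_mul_le_mul_left h3 hε
      exact_mod_cast h4
    · have hTinc : Increasing T := fun a ha b hb => hinc a (hTH ha) b (hTH hb)
      have h1 := card_le_mul hTinc
      have h2 : 4 * T.card ≤ spanned T ^ 2 := by
        have h3 : (T.image fun a => a.1).card + (T.image fun a => a.2.1).card ≤ spanned T := by
          rw [spanned_eq]; omega
        have h4 : 4 * ((T.image fun a => a.1).card * (T.image fun a => a.2.1).card) ≤
            ((T.image fun a => a.1).card + (T.image fun a => a.2.1).card) ^ 2 := by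
          zify
          nlinarith [sq_nonneg (((T.image fun a => a.1).card : ℤ) -
            ((T.image fun a => a.2.1).card : ℤ))]
        calc 4 * T.card ≤ 4 * ((T.image fun a => a.1).card * (T.image fun a => a.2.1).card) :=
              Nat.mul_le_mul_left _ h1
          _ ≤ _ := h4
          _ ≤ spanned T ^ 2 := Nat.pow_le_pow_left h3 2
      have h5 : 4 * (T.card : ℝ) ≤ (spanned T : ℝ) ^ 2 := by exact_mod_cast h2
      have h6 : (ε * w * spanned T) ^ 2 ≤ (12 * (T.card : ℝ)) ^ 2 :=
        pow_le_pow_left₀ (by positivity) hT1 2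
      have h7 : (ε * w) ^ 2 * (4 * (T.card : ℝ)) ≤ 144 * (T.card : ℝ) ^ 2 := by
        calc (ε * w) ^ 2 * (4 * (T.card : ℝ)) ≤ (ε * w) ^ 2 * (spanned T : ℝ) ^ 2 :=
              mul_le_mul_of_nonneg_left h5 (by positivity)
          _ = (ε * w * spanned T) ^ 2 := by ring
          _ ≤ _ := h6
          _ = _ := by ring
      have h8 : (ε * w) ^ 2 ≤ 36 * (T.card : ℝ) := by
        have h9 : (4 * (T.card : ℝ)) * (ε * w) ^ 2 ≤ (4 * (T.card : ℝ)) * (36 * (T.card : ℝ)) := by
          linarith
        exact le_of_mul_le_mul_left h9 (by linarith)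
      have h9 : t / 2 ≤ w := by linarith
      have h10 : ε * k / 24 ≤ w := by rw [ht] at h9; linarith
      have h11 : (ε * (ε * k / 24)) ^ 2 ≤ (ε * w) ^ 2 :=
        pow_le_pow_left₀ (by positivity) (mul_le_mul_of_nonneg_left h10 hε.le) 2
      have h12 : (ε * (ε * k / 24)) ^ 2 = ε ^ 4 * (k : ℝ) ^ 2 / 576 := by ring
      rw [h12] at h11
      rw [div_le_iff₀ (by norm_num)]
      linarith
  · push Not at hbig
    obtain ⟨a, ha⟩ : H.Nonempty := Finset.card_pos.1 (by exact_mod_cast hHpos)
    refine ⟨{a}, Finset.singleton_subset_iff.2 ha, ?_, ?_⟩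
    · rw [spanned_eq, Finset.image_singleton, Finset.image_singleton, Finset.image_singleton,
        Finset.card_singleton, Finset.card_singleton, Finset.card_singleton]
      omega
    · rw [Finset.card_singleton, Nat.cast_one, div_le_iff₀ (by norm_num)]
      have h1 : (ε * k) ^ 2 ≤ 12 ^ 2 := pow_le_pow_left₀ (by positivity) hbig.le 2
      have h2 : ε ^ 2 ≤ 1 := pow_le_one₀ hε.le hε1
      calc ε ^ 4 * (k : ℝ) ^ 2 = ε ^ 2 * (ε * k) ^ 2 := by ring
        _ ≤ 1 * 12 ^ 2 := mul_le_mul h2 h1 (by positivity) (by norm_num)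
        _ ≤ 1 * 20736 := by norm_num

/-- the same with a prescribed number of edges -/
theorem mono_edges [LinearOrder X] [LinearOrder Y] [LinearOrder Z] [Fintype X] [Fintype Y]
    [Fintype Z] {n e : ℕ} (hX : Fintype.card X ≤ n) (hY : Fintype.card Y ≤ n)
    (hZ : Fintype.card Z ≤ n) (he : 1 ≤ e) {ε : ℝ} (hε : 0 < ε)
    (hen : 144 * Real.sqrt e / ε ^ 2 + 1 ≤ n)
    {H : Finset (X × Y × Z)} (hinc : Increasing H) (hH : ε * (n : ℝ) ^ 2 ≤ H.card) :
    ∃ T ⊆ H, T.card = e ∧ (spanned T : ℝ) ≤ 144 * Real.sqrt e / ε ^ 2 + 1 := by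
  classical
  have he1 : (1 : ℝ) ≤ e := by exact_mod_cast he
  have hs1 : 1 ≤ Real.sqrt e := by rw [Real.one_le_sqrt]; exact he1
  have hn1 : (0 : ℝ) < n := by
    have : 0 < 144 * Real.sqrt e / ε ^ 2 := by positivity
    linarith
  have hε1 : ε ≤ 1 := by
    have h1 : H.card ≤ n * n := by
      refine (card_le_mul hinc).trans (Nat.mul_le_mul ?_ ?_)
      · exact (Finset.card_le_univ _).trans hX
      · exact (Finset.card_le_univ _).trans hY
    have h2 : (H.card : ℝ) ≤ (n : ℝ) ^ 2 := by
      rw [sq]; exact_mod_cast h1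
    by_contra h3
    push Not at h3
    have : (0 : ℝ) < (n : ℝ) ^ 2 := by positivity
    nlinarith
  set q : ℝ := 144 * Real.sqrt e / ε ^ 2 with hq
  have hq144 : 144 ≤ q := by
    rw [hq, le_div_iff₀ (by positivity)]
    have h2 : ε ^ 2 ≤ 1 := pow_le_one₀ hε.le hε1
    nlinarith
  set k : ℕ := ⌈q⌉₊ with hk
  have hkq : q ≤ k := Nat.le_ceil q
  have hkq' : (k : ℝ) < q + 1 := Nat.ceil_lt_add_one (by linarith)
  have hk3 : 3 ≤ k := by
    have : (3 : ℝ) ≤ k := by linarith
    exact_mod_cast this
  have hkn : k ≤ n := by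
    have : (k : ℝ) ≤ n := by linarith
    exact_mod_cast this
  obtain ⟨T, hTH, hT1, hT2⟩ := mono_dense hX hY hZ hk3 hkn hε hinc hH
  have h3 : (e : ℝ) ≤ T.card := by
    refine le_trans ?_ hT2
    rw [le_div_iff₀ (by norm_num)]
    have h4 : q ^ 2 ≤ (k : ℝ) ^ 2 := pow_le_pow_left₀ (by linarith) hkq 2
    have h5 : q ^ 2 * ε ^ 4 = 20736 * e := by
      rw [hq, div_pow, mul_pow, Real.sq_sqrt (by linarith)]
      field_simp
      norm_num
    have h6 : q ^ 2 * ε ^ 4 ≤ (k : ℝ) ^ 2 * ε ^ 4 := mul_le_mul_of_nonneg_right h4 (by positivity)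
    linarith
  have h4 : e ≤ T.card := by exact_mod_cast h3
  obtain ⟨S, hS, hSc⟩ := Finset.exists_subset_card_eq h4
  refine ⟨S, hS.trans hTH, hSc, ?_⟩
  have h5 : (spanned S : ℝ) ≤ k := by
    exact_mod_cast (spanned_mono hS).trans hT1
  linarith

end Pool.Agent.Q264.Bes
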