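import Pool.Agent.Q264.Bes.Uni

/-!
Dense `r`-partite systems whose vertices in the other parts depend monotonically on the vertices in two
parts contain `e` edges with only `O(√e)` vertices.
-/

set_option autoImplicit false

namespace Pool.Agent.Q264.Bes

open Finset

universe u

/-- No two edges of `H` with the same vertex in the part `k` are in increasing position with respect to
the numberings `f`, `g` of the parts `p`, `q`. -/
def NoIncreasingPair {r : ℕ} {X : Fin r → Type u} {p q : Fin r} (f : X p → ℕ) (g : X q → ℕ)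
    (H : Finset (∀ i, X i)) (k : Fin r) : Prop :=
  ∀ a ∈ H, ∀ b ∈ H, a k = b k → f (a p) < f (b p) → ¬ g (a q) < g (b q)

/-- No two edges of `H` with the same vertex in the part `k` are in decreasing position with respect to
the numberings `f`, `g` of the parts `p`, `q`. -/
def NoDecreasingPair {r : ℕ} {X : Fin r → Type u} {p q : Fin r} (f : X p → ℕ) (g : X q → ℕ)
    (H : Finset (∀ i, X i)) (k : Fin r) : Prop :=
  ∀ a ∈ H, ∀ b ∈ H, a k = b k → f (a p) < f (b p) → ¬ g (b q) < g (a q)

open Classical in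
/-- The edges of `H` can be divided into `s` classes such that in every class no two edges with the same
vertex in the part `k` are in increasing position, or no two are in decreasing position. -/
def MonotonePieces {r : ℕ} {X : Fin r → Type u} {p q : Fin r} (f : X p → ℕ) (g : X q → ℕ)
    (H : Finset (∀ i, X i)) (s : ℕ) (k : Fin r) : Prop :=
  ∃ lab : (∀ i, X i) → Fin s, ∀ j : Fin s,
    NoIncreasingPair f g (H.filter fun a => lab a = j) k ∨
      NoDecreasingPair f g (H.filter fun a => lab a = j) k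

section core

variable {r : ℕ} {X : Fin r → Type u}

open Classical in
lemma spannedR_mono {T T' : Finset (∀ i, X i)} (h : T ⊆ T') : spannedR T ≤ spannedR T' := by
  unfold spannedR
  exact Finset.sum_le_sum fun i _ => Finset.card_le_card (Finset.image_subset_image h)

lemma block_card {A : Type*} (f : A → ℕ) (hf : Function.Injective f) (w i : ℕ) (hw : 1 ≤ w)
    (S : Finset A) (hS : ∀ a ∈ S, f a / w = i) : S.card ≤ w := by
  calc S.card ≤ (Finset.Ico (i * w) (i * w + w)).card := by
        apply Finset.card_le_card_of_injOn f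
        · intro a ha
          have h1 := hS a ha
          rw [Finset.mem_coe, Finset.mem_Ico]
          have h2 := Nat.div_add_mod (f a) w
          have h3 := Nat.mod_lt (f a) hw
          rw [h1, mul_comm] at h2
          omega
        · exact hf.injOn
    _ = w := by rw [Nat.card_Ico]; omega

open Classical in
/-- two parts and the rest -/
lemma spannedR_two {p q : Fin r} (hpq : p ≠ q) (T : Finset (∀ i, X i)) :
    spannedR T = (T.image fun a => a p).card + (T.image fun a => a q).card +
      ∑ k ∈ (Finset.univ \ {p, q} : Finset (Fin r)), (T.image fun a => a k).card := by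
  unfold spannedR
  rw [← Finset.sum_sdiff (Finset.subset_univ ({p, q} : Finset (Fin r))), Finset.sum_pair hpq]
  ring

lemma lt_of_div_lt {a b w : ℕ} (h : a / w < b / w) : a < b :=
  lt_of_not_ge fun hba => absurd h (not_lt_of_ge (Nat.div_le_div_right hba))

open Classical in
/-- the number of pairs (cell, vertex of the part `k`) -/
lemma cells_part {n w : ℕ} {p q : Fin r} {k : Fin r} [Fintype (X k)] (f : X p → ℕ) (g : X q → ℕ)
    (hk : Fintype.card (X k) ≤ n)
    {H : Finset (∀ i, X i)} (hmon : NoIncreasingPair f g H k ∨ NoDecreasingPair f g H k) :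
    ∑ c ∈ Finset.range (n / w + 1) ×ˢ Finset.range (n / w + 1),
      ((H.filter fun a => (f (a p) / w, g (a q) / w) = c).image fun a => a k).card ≤
      2 * (n / w + 1) * n := by
  set m : ℕ := n / w + 1 with hm
  set C : Finset (ℕ × ℕ) := Finset.range m ×ˢ Finset.range m with hC
  rw [← Finset.card_sigma]
  have hdata : ∀ x : (Σ _ : ℕ × ℕ, X k), x ∈ (C.sigma fun c =>
      (H.filter fun a => (f (a p) / w, g (a q) / w) = c).image fun a => a k) →
      (x.1.1 < m ∧ x.1.2 < m) ∧ ∃ a ∈ H, a k = x.2 ∧ f (a p) / w = x.1.1 ∧ g (a q) / w = x.1.2 := by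
    intro x hx
    obtain ⟨h2, h3⟩ := Finset.mem_sigma.1 hx
    rw [hC, Finset.mem_product, Finset.mem_range, Finset.mem_range] at h2
    obtain ⟨a, ha, hza⟩ := Finset.mem_image.1 h3
    obtain ⟨haH, hac⟩ := Finset.mem_filter.1 ha
    exact ⟨h2, a, haH, hza, congrArg Prod.fst hac, congrArg Prod.snd hac⟩
  rcases hmon with hmon | hmon
  · calc _ ≤ ((Finset.range (2 * m)) ×ˢ (Finset.univ : Finset (X k))).card := by
          apply Finset.card_le_card_of_injOn (fun x => (x.1.1 + (m - x.1.2), x.2))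
          · intro x hx
            obtain ⟨⟨h1, h2⟩, -⟩ := hdata x (Finset.mem_coe.1 hx)
            rw [Finset.mem_coe, Finset.mem_product, Finset.mem_range]
            refine ⟨?_, Finset.mem_univ _⟩
            show x.1.1 + (m - x.1.2) < 2 * m
            omega
          · intro x hx y hy hxy
            obtain ⟨⟨hx1, hx2⟩, a, ha, hak, ha1, ha2⟩ := hdata x (Finset.mem_coe.1 hx)
            obtain ⟨⟨hy1, hy2⟩, b, hb, hbk, hb1, hb2⟩ := hdata y (Finset.mem_coe.1 hy)
            obtain ⟨h4, h5⟩ := Prod.mk.inj hxy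
            have hab : a k = b k := by rw [hak, hbk, h5]
            have h6 : x.1.1 = y.1.1 := by
              rcases lt_trichotomy x.1.1 y.1.1 with h | h | h
              · refine absurd ?_ (hmon a ha b hb hab (lt_of_div_lt (w := w) (by rw [ha1, hb1]; exact h)))
                exact lt_of_div_lt (w := w) (by rw [ha2, hb2]; omega)
              · exact h
              · refine absurd ?_ (hmon b hb a ha hab.symm
                  (lt_of_div_lt (w := w) (by rw [ha1, hb1]; exact h)))
                exact lt_of_div_lt (w := w) (by rw [ha2, hb2]; omega)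
            have h7 : x.1.2 = y.1.2 := by omega
            exact Sigma.ext (Prod.ext h6 h7) (heq_of_eq h5)
      _ ≤ 2 * m * n := by
          rw [Finset.card_product, Finset.card_range, Finset.card_univ]
          exact Nat.mul_le_mul_left _ hk
  · calc _ ≤ ((Finset.range (2 * m)) ×ˢ (Finset.univ : Finset (X k))).card := by
          apply Finset.card_le_card_of_injOn (fun x => (x.1.1 + x.1.2, x.2))
          · intro x hx
            obtain ⟨⟨h1, h2⟩, -⟩ := hdata x (Finset.mem_coe.1 hx)
            rw [Finset.mem_coe, Finset.mem_product, Finset.mem_range]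
            refine ⟨?_, Finset.mem_univ _⟩
            show x.1.1 + x.1.2 < 2 * m
            omega
          · intro x hx y hy hxy
            obtain ⟨⟨hx1, hx2⟩, a, ha, hak, ha1, ha2⟩ := hdata x (Finset.mem_coe.1 hx)
            obtain ⟨⟨hy1, hy2⟩, b, hb, hbk, hb1, hb2⟩ := hdata y (Finset.mem_coe.1 hy)
            obtain ⟨h4, h5⟩ := Prod.mk.inj hxy
            have hab : a k = b k := by rw [hak, hbk, h5]
            have h6 : x.1.1 = y.1.1 := by
              rcases lt_trichotomy x.1.1 y.1.1 with h | h | h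
              · refine absurd ?_ (hmon a ha b hb hab (lt_of_div_lt (w := w) (by rw [ha1, hb1]; exact h)))
                exact lt_of_div_lt (w := w) (by rw [ha2, hb2]; omega)
              · exact h
              · refine absurd ?_ (hmon b hb a ha hab.symm
                  (lt_of_div_lt (w := w) (by rw [ha1, hb1]; exact h)))
                exact lt_of_div_lt (w := w) (by rw [ha2, hb2]; omega)
            have h7 : x.1.2 = y.1.2 := by omega
            exact Sigma.ext (Prod.ext h6 h7) (heq_of_eq h5)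
      _ ≤ 2 * m * n := by
          rw [Finset.card_product, Finset.card_range, Finset.card_univ]
          exact Nat.mul_le_mul_left _ hk

open Classical in
lemma cells_pieces {n w s : ℕ} {p q : Fin r} {k : Fin r} [Fintype (X k)] (f : X p → ℕ) (g : X q → ℕ)
    (hk : Fintype.card (X k) ≤ n) {H : Finset (∀ i, X i)} (hmon : MonotonePieces f g H s k) :
    ∑ c ∈ Finset.range (n / w + 1) ×ˢ Finset.range (n / w + 1),
      ((H.filter fun a => (f (a p) / w, g (a q) / w) = c).image fun a => a k).card ≤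
      s * (2 * (n / w + 1) * n) := by
  obtain ⟨lab, hlab⟩ := hmon
  calc _ ≤ ∑ c ∈ Finset.range (n / w + 1) ×ˢ Finset.range (n / w + 1), ∑ j : Fin s,
        (((H.filter fun a => lab a = j).filter fun a =>
          (f (a p) / w, g (a q) / w) = c).image fun a => a k).card := by
        apply Finset.sum_le_sum
        intro c _
        refine le_trans (Finset.card_le_card ?_) Finset.card_biUnion_le
        intro x hx
        obtain ⟨a, ha, hax⟩ := Finset.mem_image.1 hx
        obtain ⟨haH, hac⟩ := Finset.mem_filter.1 ha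
        refine Finset.mem_biUnion.2 ⟨lab a, Finset.mem_univ _, Finset.mem_image.2 ⟨a, ?_, hax⟩⟩
        exact Finset.mem_filter.2 ⟨Finset.mem_filter.2 ⟨haH, rfl⟩, hac⟩
    _ = ∑ j : Fin s, ∑ c ∈ Finset.range (n / w + 1) ×ˢ Finset.range (n / w + 1),
        (((H.filter fun a => lab a = j).filter fun a =>
          (f (a p) / w, g (a q) / w) = c).image fun a => a k).card := Finset.sum_comm
    _ ≤ ∑ _j : Fin s, 2 * (n / w + 1) * n := Finset.sum_le_sum fun j _ => cells_part f g hk (hlab j)
    _ = s * (2 * (n / w + 1) * n) := by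
        rw [Finset.sum_const, Finset.card_univ, Fintype.card_fin, smul_eq_mul]

open Classical in
/-- a dense cell -/
theorem monoR_core [∀ i, Fintype (X i)] {n w s : ℕ} (hw : 1 ≤ w) (hwn : w ≤ n) {p q : Fin r}
    (hpq : p ≠ q) (f : X p → ℕ) (g : X q → ℕ) (hfi : Function.Injective f)
    (hgi : Function.Injective g) (hf : ∀ x, f x < n) (hg : ∀ x, g x < n)
    (hX : ∀ i, Fintype.card (X i) ≤ n) {H : Finset (∀ i, X i)}
    (hdet : ∀ a ∈ H, ∀ b ∈ H, a p = b p → a q = b q → a = b)
    (hs : 1 ≤ s) (hmon : ∀ k, k ≠ p → k ≠ q → MonotonePieces f g H s k)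
    {ε : ℝ} (hε : 0 < ε) (hH : ε * (n : ℝ) ^ 2 ≤ H.card) : ∃ T ⊆ H, T.Nonempty ∧
      ε * w * spannedR T ≤ 4 * (r * s : ℕ) * T.card ∧ T.card ≤ w * w := by
  set m : ℕ := n / w + 1 with hm
  set cell : (∀ i, X i) → ℕ × ℕ := fun a => (f (a p) / w, g (a q) / w) with hcell
  set C : Finset (ℕ × ℕ) := Finset.range m ×ˢ Finset.range m with hC
  have hr2 : 2 ≤ r := by
    have h1 := p.isLt
    have h2 := q.isLt
    have h3 : p.val ≠ q.val := fun h => hpq (Fin.ext h)
    omega
  have hmaps : ∀ a ∈ H, cell a ∈ C := by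
    intro a _
    simp only [hcell, hC, Finset.mem_product, Finset.mem_range, hm]
    exact ⟨Nat.lt_succ_of_le (Nat.div_le_div_right (hf _).le),
      Nat.lt_succ_of_le (Nat.div_le_div_right (hg _).le)⟩
  have hsum : H.card = ∑ c ∈ C, (H.filter fun a => cell a = c).card :=
    Finset.card_eq_sum_card_fiberwise (fun a ha => hmaps a ha)
  have hxw : ∀ c : ℕ × ℕ, ((H.filter fun a => cell a = c).image fun a => a p).card ≤ w := by
    intro c
    apply block_card f hfi w c.1 hw
    intro x hx
    obtain ⟨a, ha, rfl⟩ := Finset.mem_image.1 hx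
    rw [← (Finset.mem_filter.1 ha).2]
  have hyw : ∀ c : ℕ × ℕ, ((H.filter fun a => cell a = c).image fun a => a q).card ≤ w := by
    intro c
    apply block_card g hgi w c.2 hw
    intro y hy
    obtain ⟨a, ha, rfl⟩ := Finset.mem_image.1 hy
    rw [← (Finset.mem_filter.1 ha).2]
  have hcardw : ∀ c : ℕ × ℕ, (H.filter fun a => cell a = c).card ≤ w * w := by
    intro c
    refine le_trans ?_ (Nat.mul_le_mul (hxw c) (hyw c))
    rw [← Finset.card_product]
    apply Finset.card_le_card_of_injOn (fun a => (a p, a q))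
    · intro a ha
      exact Finset.mem_coe.2 (Finset.mem_product.2 ⟨Finset.mem_image.2 ⟨a, ha, rfl⟩,
        Finset.mem_image.2 ⟨a, ha, rfl⟩⟩)
    · intro a ha b hb hab
      obtain ⟨h1, h2⟩ := Prod.mk.inj hab
      exact hdet a (Finset.mem_filter.1 ha).1 b (Finset.mem_filter.1 hb).1 h1 h2
  have hK : (Finset.univ \ {p, q} : Finset (Fin r)).card = r - 2 := by
    rw [Finset.card_sdiff_of_subset (Finset.subset_univ _), Finset.card_univ, Fintype.card_fin,
      Finset.card_pair hpq]
  have hmw : m * w ≤ 2 * n := by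
    rw [hm, add_mul, one_mul]
    have := Nat.div_mul_le_self n w
    omega
  have hspan : ∑ c ∈ C, spannedR (H.filter fun a => cell a = c) * w ≤ 4 * (r * s) * n ^ 2 := by
    have h1 : ∑ c ∈ C, spannedR (H.filter fun a => cell a = c) ≤
        m * m * (2 * w) + (r - 2) * (s * (2 * m * n)) := by
      calc ∑ c ∈ C, spannedR (H.filter fun a => cell a = c) ≤
            ∑ c ∈ C, (2 * w + ∑ k ∈ (Finset.univ \ {p, q} : Finset (Fin r)),
              ((H.filter fun a => cell a = c).image fun a => a k).card) := by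
            apply Finset.sum_le_sum
            intro c _
            have h2 := hxw c
            have h3 := hyw c
            rw [spannedR_two hpq]
            omega
        _ = C.card * (2 * w) + ∑ k ∈ (Finset.univ \ {p, q} : Finset (Fin r)), ∑ c ∈ C,
            ((H.filter fun a => cell a = c).image fun a => a k).card := by
            rw [Finset.sum_add_distrib, Finset.sum_const, smul_eq_mul, Finset.sum_comm]
        _ ≤ m * m * (2 * w) + (r - 2) * (s * (2 * m * n)) := by
            apply Nat.add_le_add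
            · rw [hC, Finset.card_product, Finset.card_range]
            · rw [← hK, ← smul_eq_mul (b := s * (2 * m * n))]
              apply Finset.sum_le_card_nsmul
              intro k hk
              rw [Finset.mem_sdiff, Finset.mem_insert, Finset.mem_singleton, not_or] at hk
              exact cells_pieces f g (hX k) (hmon k hk.2.1 hk.2.2)
    rw [← Finset.sum_mul]
    calc (∑ c ∈ C, spannedR (H.filter fun a => cell a = c)) * w ≤
          (m * m * (2 * w) + (r - 2) * (s * (2 * m * n))) * w := Nat.mul_le_mul_right _ h1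
      _ = 2 * ((m * w) * (m * w)) + (r - 2) * (s * (2 * (m * w) * n)) := by ring
      _ ≤ 2 * ((2 * n) * (2 * n)) + (r - 2) * (s * (2 * (2 * n) * n)) := by
          apply Nat.add_le_add
          · exact Nat.mul_le_mul_left _ (Nat.mul_le_mul hmw hmw)
          · exact Nat.mul_le_mul_left _ (Nat.mul_le_mul_left _
              (Nat.mul_le_mul_right _ (Nat.mul_le_mul_left _ hmw)))
      _ = 4 * ((r - 2) * s + 2 * 1) * n ^ 2 := by ring
      _ ≤ 4 * ((r - 2) * s + 2 * s) * n ^ 2 := by
          apply Nat.mul_le_mul_right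
          apply Nat.mul_le_mul_left
          exact Nat.add_le_add_left (Nat.mul_le_mul_left _ hs) _
      _ = 4 * (r * s) * n ^ 2 := by rw [← Nat.add_mul, Nat.sub_add_cancel hr2]
  by_contra hcon
  push Not at hcon
  have hn0 : (0 : ℝ) < (n : ℝ) ^ 2 := by
    have : 0 < n := by omega
    positivity
  have hHne : H.Nonempty := by
    rw [← Finset.card_pos]
    have : (0 : ℝ) < H.card := lt_of_lt_of_le (by positivity) hH
    exact_mod_cast this
  have hcells : ∀ c ∈ C, 4 * (r * s : ℕ) * ((H.filter fun a => cell a = c).card : ℝ) ≤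
      ε * w * spannedR (H.filter fun a => cell a = c) := by
    intro c _
    by_cases hne : (H.filter fun a => cell a = c).Nonempty
    · by_contra h1
      push Not at h1
      have h2 := hcon _ (Finset.filter_subset _ _) hne h1.le
      have h3 := hcardw c
      omega
    · rw [Finset.not_nonempty_iff_eq_empty] at hne
      rw [hne]
      simp only [Finset.card_empty, Nat.cast_zero, mul_zero]
      positivity
  obtain ⟨a₀, ha₀⟩ := hHne
  have hstrict : 4 * (r * s : ℕ) * ((H.filter fun a => cell a = cell a₀).card : ℝ) <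
      ε * w * spannedR (H.filter fun a => cell a = cell a₀) := by
    by_contra h1
    push Not at h1
    have hmem : a₀ ∈ H.filter fun a => cell a = cell a₀ := Finset.mem_filter.2 ⟨ha₀, Eq.refl (cell a₀)⟩
    have h2 := hcon (H.filter fun a => cell a = cell a₀) (Finset.filter_subset _ _) ⟨a₀, hmem⟩ h1
    have h3 := hcardw (cell a₀)
    omega
  have h1 : ∑ c ∈ C, 4 * (r * s : ℕ) * ((H.filter fun a => cell a = c).card : ℝ) <
      ∑ c ∈ C, ε * w * spannedR (H.filter fun a => cell a = c) :=
    Finset.sum_lt_sum hcells ⟨cell a₀, hmaps a₀ ha₀, hstrict⟩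
  rw [← Finset.mul_sum] at h1
  have h2 : ∑ c ∈ C, ((H.filter fun a => cell a = c).card : ℝ) = H.card := by
    rw [hsum]; push_cast; rfl
  have h3 : ∑ c ∈ C, ε * w * spannedR (H.filter fun a => cell a = c) ≤ ε * (4 * (r * s : ℕ) * (n : ℝ) ^ 2) := by
    have h4 : ∑ c ∈ C, ε * w * (spannedR (H.filter fun a => cell a = c) : ℝ) =
        ε * ∑ c ∈ C, ((spannedR (H.filter fun a => cell a = c) : ℝ) * w) := by
      rw [Finset.mul_sum]
      exact Finset.sum_congr rfl fun c _ => by ring
    rw [h4]
    apply mul_le_mul_of_nonneg_left _ hε.le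
    exact_mod_cast hspan
  rw [h2] at h1
  have h5 : 4 * ((r * s : ℕ) : ℝ) * (ε * (n : ℝ) ^ 2) ≤ 4 * (r * s : ℕ) * H.card :=
    mul_le_mul_of_nonneg_left hH (by positivity)
  linarith

open Classical in
/-- `e` edges with few vertices -/
theorem monoR_edges [∀ i, Fintype (X i)] {n e s : ℕ} {p q : Fin r}
    (hpq : p ≠ q) (f : X p → ℕ) (g : X q → ℕ) (hfi : Function.Injective f)
    (hgi : Function.Injective g) (hf : ∀ x, f x < n) (hg : ∀ x, g x < n)
    (hX : ∀ i, Fintype.card (X i) ≤ n) {H : Finset (∀ i, X i)}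
    (hdet : ∀ a ∈ H, ∀ b ∈ H, a p = b p → a q = b q → a = b)
    (hs : 1 ≤ s) (hmon : ∀ k, k ≠ p → k ≠ q → MonotonePieces f g H s k)
    {ε : ℝ} (hε : 0 < ε) (hH : ε * (n : ℝ) ^ 2 ≤ H.card) (he : 1 ≤ e)
    (hen : 3 * (r * s : ℕ) * Real.sqrt e ≤ ε * n) :
    ∃ T ⊆ H, T.card = e ∧ (spannedR T : ℝ) ≤ 12 * (r * s : ℕ) ^ 2 * Real.sqrt e / ε ^ 2 := by
  have he1 : (1 : ℝ) ≤ e := by exact_mod_cast he
  have hs1 : 1 ≤ Real.sqrt e := by rw [Real.one_le_sqrt]; exact he1
  have hr2 : 2 ≤ r := by
    have h1 := p.isLt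
    have h2 := q.isLt
    have h3 : p.val ≠ q.val := fun h => hpq (Fin.ext h)
    omega
  set R : ℕ := r * s with hR
  have hR2 : 2 ≤ R := by
    rw [hR]
    exact hr2.trans (Nat.le_mul_of_pos_right _ hs)
  have hr2' : (2 : ℝ) ≤ R := by exact_mod_cast hR2
  have hn1 : (0 : ℝ) < n := by
    have : 0 < 3 * R * Real.sqrt e := by positivity
    by_contra h
    push Not at h
    have : ε * n ≤ 0 := mul_nonpos_of_nonneg_of_nonpos hε.le h
    linarith
  have hε1 : ε ≤ 1 := by
    have h1 : H.card ≤ n * n := by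
      calc H.card ≤ ((Finset.univ : Finset (X p)) ×ˢ (Finset.univ : Finset (X q))).card := by
            apply Finset.card_le_card_of_injOn (fun a => (a p, a q))
            · intro a _
              exact Finset.mem_coe.2 (Finset.mem_product.2 ⟨Finset.mem_univ _, Finset.mem_univ _⟩)
            · intro a ha b hb hab
              obtain ⟨h1, h2⟩ := Prod.mk.inj hab
              exact hdet a ha b hb h1 h2
        _ ≤ n * n := by
            rw [Finset.card_product, Finset.card_univ, Finset.card_univ]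
            exact Nat.mul_le_mul (hX p) (hX q)
    have h2 : (H.card : ℝ) ≤ (n : ℝ) ^ 2 := by
      rw [sq]; exact_mod_cast h1
    by_contra h3
    push Not at h3
    have : (0 : ℝ) < (n : ℝ) ^ 2 := by positivity
    nlinarith
  set t : ℝ := 2 * R * Real.sqrt e / ε with ht
  have ht1 : 4 ≤ t := by
    rw [ht, le_div_iff₀ hε]
    nlinarith
  set w : ℕ := ⌈t⌉₊ with hw
  have htw : t ≤ w := Nat.le_ceil t
  have hwt : (w : ℝ) < t + 1 := Nat.ceil_lt_add_one (by linarith)
  have hw0 : (0 : ℝ) < w := by linarith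
  have hw1 : 1 ≤ w := by
    have : 0 < w := by exact_mod_cast hw0
    omega
  have h3t : t + 1 ≤ 3 * R * Real.sqrt e / ε := by
    have h1 : 3 * R * Real.sqrt e / ε = t + R * Real.sqrt e / ε := by rw [ht]; ring
    rw [h1]
    have h2 : 1 ≤ R * Real.sqrt e / ε := by
      rw [le_div_iff₀ hε]
      nlinarith
    linarith
  have hwn : w ≤ n := by
    have h1 : 3 * R * Real.sqrt e / ε ≤ n := by
      rw [div_le_iff₀ hε]
      linarith
    have : (w : ℝ) ≤ n := by linarith
    exact_mod_cast this
  obtain ⟨T, hTH, hTne, hT1, hT2⟩ := monoR_core hw1 hwn hpq f g hfi hgi hf hg hX hdet hs hmon hε hH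
  have hTpos : (0 : ℝ) < T.card := by exact_mod_cast Finset.card_pos.2 hTne
  have hT2' : (T.card : ℝ) ≤ w * w := by exact_mod_cast hT2
  have hr0 : (0 : ℝ) < R := by linarith
  -- many edges
  have hTmul : T.card ≤ (T.image fun a => a p).card * (T.image fun a => a q).card := by
    rw [← Finset.card_product]
    apply Finset.card_le_card_of_injOn (fun a => (a p, a q))
    · intro a ha
      exact Finset.mem_coe.2 (Finset.mem_product.2 ⟨Finset.mem_image.2 ⟨a, ha, rfl⟩,
        Finset.mem_image.2 ⟨a, ha, rfl⟩⟩)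
    · intro a ha b hb hab
      obtain ⟨h1, h2⟩ := Prod.mk.inj hab
      exact hdet a (hTH ha) b (hTH hb) h1 h2
  have h4T : 4 * T.card ≤ spannedR T ^ 2 := by
    have h3 : (T.image fun a => a p).card + (T.image fun a => a q).card ≤ spannedR T := by
      rw [spannedR_two hpq]; omega
    have h4 : 4 * ((T.image fun a => a p).card * (T.image fun a => a q).card) ≤
        ((T.image fun a => a p).card + (T.image fun a => a q).card) ^ 2 := by
      zify
      nlinarith [sq_nonneg (((T.image fun a => a p).card : ℤ) - ((T.image fun a => a q).card : ℤ))]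
    calc 4 * T.card ≤ 4 * ((T.image fun a => a p).card * (T.image fun a => a q).card) :=
          Nat.mul_le_mul_left _ hTmul
      _ ≤ _ := h4
      _ ≤ spannedR T ^ 2 := Nat.pow_le_pow_left h3 2
  have h5 : 4 * (T.card : ℝ) ≤ (spannedR T : ℝ) ^ 2 := by exact_mod_cast h4T
  have h6 : (ε * w * spannedR T) ^ 2 ≤ (4 * R * (T.card : ℝ)) ^ 2 :=
    pow_le_pow_left₀ (by positivity) hT1 2
  have h7 : (ε * w) ^ 2 * (4 * (T.card : ℝ)) ≤ (4 * R) ^ 2 * (T.card : ℝ) ^ 2 := by
    calc (ε * w) ^ 2 * (4 * (T.card : ℝ)) ≤ (ε * w) ^ 2 * (spannedR T : ℝ) ^ 2 :=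
          mul_le_mul_of_nonneg_left h5 (by positivity)
      _ = (ε * w * spannedR T) ^ 2 := by ring
      _ ≤ _ := h6
      _ = _ := by ring
  have h8 : (ε * w) ^ 2 ≤ 4 * R ^ 2 * (T.card : ℝ) := by
    have h9 : (4 * (T.card : ℝ)) * (ε * w) ^ 2 ≤ (4 * (T.card : ℝ)) * (4 * R ^ 2 * (T.card : ℝ)) := by
      nlinarith
    exact le_of_mul_le_mul_left h9 (by linarith)
  have h9 : (2 * R * Real.sqrt e) ^ 2 ≤ (ε * w) ^ 2 := by
    apply pow_le_pow_left₀ (by positivity)
    have : ε * t = 2 * R * Real.sqrt e := by rw [ht]; field_simp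
    rw [← this]
    exact mul_le_mul_of_nonneg_left htw hε.le
  have h10 : (e : ℝ) ≤ T.card := by
    have h11 : (2 * R * Real.sqrt e) ^ 2 = 4 * R ^ 2 * e := by
      rw [mul_pow, mul_pow, Real.sq_sqrt (by linarith)]
      ring
    rw [h11] at h9
    have h12 : 4 * (R : ℝ) ^ 2 * e ≤ 4 * R ^ 2 * T.card := h9.trans h8
    exact le_of_mul_le_mul_left h12 (by positivity)
  have h11 : e ≤ T.card := by exact_mod_cast h10
  obtain ⟨S, hS, hSc⟩ := Finset.exists_subset_card_eq h11
  refine ⟨S, hS.trans hTH, hSc, ?_⟩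
  have h12 : (spannedR S : ℝ) ≤ spannedR T := by exact_mod_cast spannedR_mono hS
  refine h12.trans ?_
  rw [le_div_iff₀ (by positivity)]
  have h13 : ε * (spannedR T : ℝ) ≤ 4 * R * w := by
    have h14 : (w : ℝ) * (ε * spannedR T) ≤ w * (4 * R * w) := by
      have : 4 * (R : ℝ) * T.card ≤ 4 * R * (w * w) := mul_le_mul_of_nonneg_left hT2' (by positivity)
      linarith
    exact le_of_mul_le_mul_left h14 hw0
  have h14 : (w : ℝ) ≤ 3 * R * Real.sqrt e / ε := by linarith
  have h15 : ε * (w : ℝ) ≤ 3 * R * Real.sqrt e := by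
    rw [le_div_iff₀ hε] at h14
    linarith
  calc (spannedR T : ℝ) * ε ^ 2 = ε * (ε * spannedR T) := by ring
    _ ≤ ε * (4 * R * w) := mul_le_mul_of_nonneg_left h13 hε.le
    _ = 4 * R * (ε * w) := by ring
    _ ≤ 4 * R * (3 * R * Real.sqrt e) := mul_le_mul_of_nonneg_left h15 (by positivity)
    _ = 12 * R ^ 2 * Real.sqrt e := by ring

open Classical in
/-- sparse systems -/
theorem monoR_sparse [∀ i, Fintype (X i)] {n e s : ℕ} (hr : 3 ≤ r) {p q : Fin r}
    (hpq : p ≠ q) (f : X p → ℕ) (g : X q → ℕ) (hfi : Function.Injective f)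
    (hgi : Function.Injective g) (hf : ∀ x, f x < n) (hg : ∀ x, g x < n)
    (hX : ∀ i, Fintype.card (X i) ≤ n) {H : Finset (∀ i, X i)}
    (hdet : ∀ a ∈ H, ∀ b ∈ H, a p = b p → a q = b q → a = b)
    (hs : 1 ≤ s) (hmon : ∀ k, k ≠ p → k ≠ q → MonotonePieces f g H s k)
    (he : 1 ≤ e) (hS : SparseR e H) :
    (H.card : ℝ) ≤ 3 * (r * s : ℕ) * Real.sqrt e * n +
      6 * s * Real.sqrt r * (e : ℝ) ^ (-(1 / 4) : ℝ) * (n : ℝ) ^ 2 := by
  have he1 : (1 : ℝ) ≤ e := by exact_mod_cast he
  have he0 : (0 : ℝ) < e := by linarith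
  have hs0 : 0 < Real.sqrt e := Real.sqrt_pos.2 he0
  have hr3 : (3 : ℝ) ≤ r := by exact_mod_cast hr
  by_contra hcon
  push Not at hcon
  have hn : 0 < n := by
    rcases Nat.eq_zero_or_pos n with h0 | h0
    · subst h0
      have h1 : (Finset.univ : Finset (∀ i, X i)) = ∅ := by
        apply Finset.univ_eq_empty_iff.2
        exact ⟨fun a => absurd (hf (a p)) (Nat.not_lt_zero _)⟩
      have h2 : H = ∅ := Finset.subset_empty.1 (h1 ▸ Finset.subset_univ H)
      rw [h2] at hcon
      simp at hcon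
    · exact h0
  have hnr : (0 : ℝ) < n := by exact_mod_cast hn
  set ε : ℝ := H.card / (n : ℝ) ^ 2 with hε
  have hq0 : (0 : ℝ) < (e : ℝ) ^ (-(1 / 4) : ℝ) := Real.rpow_pos_of_pos he0 _
  have hHpos : (0 : ℝ) < H.card := by
    refine lt_trans ?_ hcon
    positivity
  have hε0 : 0 < ε := by rw [hε]; positivity
  have hεn : ε * (n : ℝ) ^ 2 = H.card := by rw [hε]; field_simp
  have hsr : (1 : ℝ) ≤ s := by exact_mod_cast hs
  have hen : 3 * (r * s : ℕ) * Real.sqrt e ≤ ε * n := by
    have h1 : 3 * (r * s : ℕ) * Real.sqrt e * n ≤ (ε * n) * n := by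
      have h2 : (ε * n) * n = H.card := by rw [← hεn]; ring
      rw [h2]
      have h3 : (0 : ℝ) ≤ 6 * s * Real.sqrt r * (e : ℝ) ^ (-(1 / 4) : ℝ) * (n : ℝ) ^ 2 := by positivity
      linarith
    exact le_of_mul_le_mul_right h1 hnr
  obtain ⟨T, hTH, hTe, hT⟩ := monoR_edges hpq f g hfi hgi hf hg hX hdet hs hmon hε0 hεn.le he hen
  have h1 := hS T hTH hTe
  have h2 : (((r - 2) * e + 3 : ℕ) : ℝ) < spannedR T := by exact_mod_cast h1
  rw [Nat.cast_add, Nat.cast_mul, Nat.cast_sub (by omega)] at h2
  push_cast at h2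
  push_cast at hT
  have h3 : ((r : ℝ) - 2) * e < 12 * (r * s) ^ 2 * Real.sqrt e / ε ^ 2 := by linarith
  rw [lt_div_iff₀ (by positivity)] at h3
  -- r - 2 ≥ r / 3
  have h4 : (r : ℝ) / 3 ≤ r - 2 := by linarith
  have h5 : (r : ℝ) / 3 * e * ε ^ 2 < 12 * (r * s) ^ 2 * Real.sqrt e := by
    refine lt_of_le_of_lt ?_ h3
    have : (r : ℝ) / 3 * e ≤ (r - 2) * e := mul_le_mul_of_nonneg_right h4 he0.le
    exact mul_le_mul_of_nonneg_right this (by positivity)
  have hse : Real.sqrt e * Real.sqrt e = e := Real.mul_self_sqrt he0.le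
  have h6 : Real.sqrt e * ε ^ 2 < 36 * (r * s ^ 2) := by
    have h7 : ((r : ℝ) / 3 * Real.sqrt e) * (Real.sqrt e * ε ^ 2) <
        ((r : ℝ) / 3 * Real.sqrt e) * (36 * (r * s ^ 2)) := by
      have e1 : ((r : ℝ) / 3 * Real.sqrt e) * (Real.sqrt e * ε ^ 2) = (r : ℝ) / 3 * e * ε ^ 2 := by
        calc ((r : ℝ) / 3 * Real.sqrt e) * (Real.sqrt e * ε ^ 2) =
            (r : ℝ) / 3 * (Real.sqrt e * Real.sqrt e) * ε ^ 2 := by ring
          _ = _ := by rw [hse]
      have e2 : ((r : ℝ) / 3 * Real.sqrt e) * (36 * (r * s ^ 2)) =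
          12 * (r * s) ^ 2 * Real.sqrt e := by ring
      rw [e1, e2]
      exact h5
    exact lt_of_mul_lt_mul_left h7 (by positivity)
  -- lower bound for ε
  have h7 : 6 * s * Real.sqrt r * (e : ℝ) ^ (-(1 / 4) : ℝ) ≤ ε := by
    have h8 : (6 * s * Real.sqrt r * (e : ℝ) ^ (-(1 / 4) : ℝ)) * (n : ℝ) ^ 2 ≤ ε * (n : ℝ) ^ 2 := by
      rw [hεn]
      have : (0 : ℝ) ≤ 3 * (r * s : ℕ) * Real.sqrt e * n := by positivity
      linarith
    exact le_of_mul_le_mul_right h8 (by positivity)
  have h8 : (6 * s * Real.sqrt r * (e : ℝ) ^ (-(1 / 4) : ℝ)) ^ 2 ≤ ε ^ 2 := pow_le_pow_left₀ (by positivity) h7 2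
  have h9 : Real.sqrt e * (6 * s * Real.sqrt r * (e : ℝ) ^ (-(1 / 4) : ℝ)) ^ 2 = 36 * (r * s ^ 2) := by
    have e1 : ((e : ℝ) ^ (-(1 / 4) : ℝ)) ^ 2 = (Real.sqrt e)⁻¹ := by
      rw [← Real.rpow_natCast, ← Real.rpow_mul he0.le, Real.sqrt_eq_rpow, ← Real.rpow_neg he0.le]
      norm_num
    rw [mul_pow, mul_pow, mul_pow, e1, Real.sq_sqrt (by linarith)]
    field_simp
    norm_num
  have h10 : (36 : ℝ) * (r * s ^ 2) ≤ Real.sqrt e * ε ^ 2 := by
    rw [← h9]
    exact mul_le_mul_of_nonneg_left h8 hs0.le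
  linarith

end core

end Pool.Agent.Q264.Bes
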