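import Pool.Agent.Q264.Bes.Major

/-!
From `r`-partite systems to triple systems.
-/

set_option autoImplicit false

namespace Pool.Agent.Q264.Bes

open Finset

universe u

variable {r : ℕ} {X : Fin r → Type u}

open Classical in
/-- The number of vertices spanned by a set of edges of an `r`-partite `r`-uniform hypergraph: the sum
over the parts of the number of vertices in this part. -/
noncomputable def spannedR (T : Finset (∀ i, X i)) : ℕ := ∑ i, (T.image fun a => a i).card

/-- The union of any `e` edges of `H` has more than `(r - 2) e + 3` vertices. -/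
def SparseR (e : ℕ) (H : Finset (∀ i, X i)) : Prop :=
  ∀ T : Finset (∀ i, X i), T ⊆ H → T.card = e → (r - 2) * e + 3 < spannedR T

/-- `H` is closed under the componentwise operation. -/
def ClosedR (p : ∀ i, X i → X i → X i → X i) (H : Finset (∀ i, X i)) : Prop :=
  ∀ a ∈ H, ∀ b ∈ H, ∀ c ∈ H, (fun i => p i (a i) (b i) (c i)) ∈ H

/-- projection to three coordinates -/
def pr3 (i j k : Fin r) (a : ∀ i, X i) : X i × X j × X k := (a i, a j, a k)

lemma rest_card {i j k : Fin r} (hij : i ≠ j) (hik : i ≠ k) (hjk : j ≠ k) :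
    (Finset.univ \ {i, j, k} : Finset (Fin r)).card = r - 3 := by
  rw [Finset.card_sdiff_of_subset (Finset.subset_univ _), Finset.card_univ, Fintype.card_fin]
  have : ({i, j, k} : Finset (Fin r)).card = 3 := by
    rw [Finset.card_eq_three]
    exact ⟨i, j, k, hij, hik, hjk, rfl⟩
  rw [this]

open Classical in
lemma spanned_split {i j k : Fin r} (hij : i ≠ j) (hik : i ≠ k) (hjk : j ≠ k)
    (T : Finset (∀ i, X i)) : spannedR T ≤ (T.image fun a => a i).card +
      (T.image fun a => a j).card + (T.image fun a => a k).card + (r - 3) * T.card := by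
  have h1 : spannedR T = ∑ l ∈ ({i, j, k} : Finset (Fin r)), (T.image fun a => a l).card +
      ∑ l ∈ (Finset.univ \ {i, j, k} : Finset (Fin r)), (T.image fun a => a l).card := by
    unfold spannedR
    rw [add_comm]
    exact (Finset.sum_sdiff (Finset.subset_univ _)).symm
  have h2 : ∑ l ∈ ({i, j, k} : Finset (Fin r)), (T.image fun a => a l).card =
      (T.image fun a => a i).card + (T.image fun a => a j).card + (T.image fun a => a k).card := by
    rw [Finset.sum_insert, Finset.sum_insert, Finset.sum_singleton, add_assoc]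
    · simpa using hjk
    · simp [hij, hik]
  have h3 : ∑ l ∈ (Finset.univ \ {i, j, k} : Finset (Fin r)), (T.image fun a => a l).card ≤
      (r - 3) * T.card := by
    rw [← rest_card hij hik hjk, ← smul_eq_mul]
    exact Finset.sum_le_card_nsmul _ _ _ (fun l _ => Finset.card_image_le)
  omega

open Classical in
/-- the projection of a sparse system is sparse -/
lemma sparse_proj (hr : 3 ≤ r) {i j k : Fin r} (hij : i ≠ j) (hik : i ≠ k) (hjk : j ≠ k) {e : ℕ}
    {H : Finset (∀ i, X i)} (hH : SparseR e H) : Sparse e (H.image (pr3 i j k)) := by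
  intro T' hT' hTc
  obtain ⟨T, hTH, hinj, hTT'⟩ : ∃ T ⊆ H, T.card = T'.card ∧ T.image (pr3 i j k) = T' := by
    have hch : ∀ t : X i × X j × X k, t ∈ T' → ∃ a ∈ H, pr3 i j k a = t := by
      intro t ht
      obtain ⟨a, ha, hat⟩ := Finset.mem_image.1 (hT' ht)
      exact ⟨a, ha, hat⟩
    choose g hg1 hg2 using hch
    refine ⟨T'.attach.image (fun t => g t.1 t.2), ?_, ?_, ?_⟩
    · intro a ha
      obtain ⟨t, _, rfl⟩ := Finset.mem_image.1 ha
      exact hg1 t.1 t.2
    · rw [Finset.card_image_of_injOn, Finset.card_attach]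
      intro s _ t _ hst
      have h1 := hg2 s.1 s.2
      have h2 := hg2 t.1 t.2
      have h3 : g s.1 s.2 = g t.1 t.2 := hst
      apply Subtype.ext
      rw [← h1, ← h2, h3]
    · rw [Finset.image_image]
      ext t
      constructor
      · intro ht
        obtain ⟨s, _, rfl⟩ := Finset.mem_image.1 ht
        simp only [Function.comp_apply]
        rw [hg2 s.1 s.2]
        exact s.2
      · intro ht
        exact Finset.mem_image.2 ⟨⟨t, ht⟩, Finset.mem_attach _ _, hg2 t ht⟩
  have h1 := hH T hTH (hinj.trans hTc)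
  have h2 := spanned_split hij hik hjk T
  rw [hinj, hTc] at h2
  have h3 : spanned T' = (T.image fun a => a i).card +
      (T.image fun a => a j).card + (T.image fun a => a k).card := by
    rw [spanned_eq, ← hTT', Finset.image_image, Finset.image_image, Finset.image_image]
    rfl
  rw [h3]
  have h4 : (r - 2) * e = (r - 3) * e + e := by
    obtain ⟨s, rfl⟩ : ∃ s, r = s + 3 := ⟨r - 3, by omega⟩
    have h5 : s + 3 - 2 = s + 1 := by omega
    have h6 : s + 3 - 3 = s := by omega
    rw [h5, h6]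
    ring
  omega

open Classical in
/-- few edges over every triple -/
lemma card_proj (hr : 3 ≤ r) {i j k : Fin r} (hij : i ≠ j) (hik : i ≠ k) (hjk : j ≠ k) {e : ℕ}
    {H : Finset (∀ i, X i)} (hH : SparseR e H) :
    H.card ≤ (H.image (pr3 i j k)).card * (e - 1) := by
  rw [Finset.card_eq_sum_card_image (pr3 i j k) H, ← smul_eq_mul]
  apply Finset.sum_le_card_nsmul
  intro t _
  by_contra hcon
  push Not at hcon
  obtain ⟨T, hT, hTc⟩ := Finset.exists_subset_card_eq (n := e)
    (s := H.filter fun a => pr3 i j k a = t) (by omega)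
  have h1 := hH T (hT.trans (Finset.filter_subset _ _)) hTc
  have h2 := spanned_split hij hik hjk T
  rw [hTc] at h2
  have one : ∀ a ∈ T, a i = t.1 ∧ a j = t.2.1 ∧ a k = t.2.2 := by
    intro a ha
    have h3 := (Finset.mem_filter.1 (hT ha)).2
    rw [← h3]
    exact ⟨rfl, rfl, rfl⟩
  have a1 : (T.image fun a => a i).card ≤ 1 := by
    rw [Finset.card_le_one]
    intro a ha b hb
    obtain ⟨s, hs, rfl⟩ := Finset.mem_image.1 ha
    obtain ⟨t, ht, rfl⟩ := Finset.mem_image.1 hb
    rw [(one s hs).1, (one t ht).1]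
  have a2 : (T.image fun a => a j).card ≤ 1 := by
    rw [Finset.card_le_one]
    intro a ha b hb
    obtain ⟨s, hs, rfl⟩ := Finset.mem_image.1 ha
    obtain ⟨t, ht, rfl⟩ := Finset.mem_image.1 hb
    rw [(one s hs).2.1, (one t ht).2.1]
  have a3 : (T.image fun a => a k).card ≤ 1 := by
    rw [Finset.card_le_one]
    intro a ha b hb
    obtain ⟨s, hs, rfl⟩ := Finset.mem_image.1 ha
    obtain ⟨t, ht, rfl⟩ := Finset.mem_image.1 hb
    rw [(one s hs).2.2, (one t ht).2.2]
  have h4 : (r - 3) * e ≤ (r - 2) * e := Nat.mul_le_mul_right _ (by omega)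
  omega

open Classical in
lemma closed_proj {i j k : Fin r} {p : ∀ i, X i → X i → X i → X i} {H : Finset (∀ i, X i)}
    (h : ClosedR p H) : Closed3 (p i) (p j) (p k) (H.image (pr3 i j k)) := by
  intro a ha b hb c hc
  obtain ⟨a', ha', rfl⟩ := Finset.mem_image.1 ha
  obtain ⟨b', hb', rfl⟩ := Finset.mem_image.1 hb
  obtain ⟨c', hc', rfl⟩ := Finset.mem_image.1 hc
  exact Finset.mem_image.2 ⟨_, h a' ha' b' hb' c' hc', rfl⟩

/-- **Mal'tsev operations, `r`-partite systems.** -/
theorem maltsev_uniform [∀ i, Fintype (X i)] (hr : 3 ≤ r) {e : ℕ} (he : 1 ≤ e)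
    {p : ∀ i, X i → X i → X i → X i} (hp : ∀ i, IsMaltsev (p i)) {H : Finset (∀ i, X i)}
    (hcl : ClosedR p H) (hH : SparseR e H) {i j k : Fin r} (hij : i ≠ j) (hik : i ≠ k)
    (hjk : j ≠ k) : (H.card : ℝ) ≤ ((e : ℝ) - 1) ^ 2 * (Fintype.card (X i) +
      Real.sqrt (Fintype.card (X i) * Fintype.card (X j) * Fintype.card (X k))) := by
  classical
  have hcl' := closed_proj (i := i) (j := j) (k := k) hcl
  have hsp := sparse_proj hr hij hik hjk hH
  have h1 := rect_bound he hsp (rectY_of_maltsev (hp i) (hp j) hcl')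
    (rectZ_of_maltsev (hp i) (hp k) hcl')
  have h2 := card_proj hr hij hik hjk hH
  have he1 : ((e - 1 : ℕ) : ℝ) = (e : ℝ) - 1 := by rw [Nat.cast_sub he, Nat.cast_one]
  have he0 : (0 : ℝ) ≤ (e : ℝ) - 1 := by rw [← he1]; exact Nat.cast_nonneg _
  have h3 : (H.card : ℝ) ≤ ((H.image (pr3 i j k)).card : ℝ) * ((e : ℝ) - 1) := by
    rw [← he1]
    exact_mod_cast h2
  calc (H.card : ℝ) ≤ ((H.image (pr3 i j k)).card : ℝ) * ((e : ℝ) - 1) := h3
    _ ≤ (((e : ℝ) - 1) * (Fintype.card (X i) +
      Real.sqrt (Fintype.card (X i) * Fintype.card (X j) * Fintype.card (X k)))) * ((e : ℝ) - 1) :=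
        mul_le_mul_of_nonneg_right h1 he0
    _ = _ := by ring

/-- **Majority operations, `r`-partite systems.** -/
theorem majority_uniform (e : ℕ) (ε : ℝ) (hε : 0 < ε) : ∃ N : ℕ, ∀ n : ℕ, N ≤ n →
    ∀ (r : ℕ) (X : Fin r → Type u) [∀ i, Fintype (X i)], 3 ≤ r → (∀ i, Fintype.card (X i) ≤ n) →
    ∀ p : ∀ i, X i → X i → X i → X i, (∀ i, IsMajority (p i)) →
    ∀ H : Finset (∀ i, X i), ClosedR p H → SparseR e H → (H.card : ℝ) ≤ ε * (n : ℝ) ^ 2 := by
  classical
  rcases Nat.eq_zero_or_pos e with he | he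
  · subst he
    refine ⟨0, fun n _ r X _ _ _ p _ H _ hH => ?_⟩
    exact absurd (hH ∅ (Finset.empty_subset _) rfl) (by simp [spannedR])
  have he1 : (0 : ℝ) < e := by exact_mod_cast he
  obtain ⟨N, hN⟩ := majority_bound.{u, u, u} e (ε / e) (by positivity)
  refine ⟨N, fun n hn r X _ hr hX p hp H hcl hH => ?_⟩
  set i : Fin r := ⟨0, by omega⟩ with hi
  set j : Fin r := ⟨1, by omega⟩ with hj
  set k : Fin r := ⟨2, by omega⟩ with hk
  have hij : i ≠ j := by simp [hi, hj]
  have hik : i ≠ k := by simp [hi, hk]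
  have hjk : j ≠ k := by simp [hj, hk]
  have h1 := hN n hn (X i) (X j) (X k) (hX i) (hX j) (hX k) (p i) (p j) (p k) (hp i) (hp j) (hp k)
    (H.image (pr3 i j k)) (closed_proj hcl) (sparse_proj hr hij hik hjk hH)
  have h2 := card_proj hr hij hik hjk hH
  have h3 : (H.card : ℝ) ≤ ((H.image (pr3 i j k)).card : ℝ) * e := by
    have h4 : H.card ≤ (H.image (pr3 i j k)).card * e :=
      h2.trans (Nat.mul_le_mul_left _ (by omega))
    exact_mod_cast h4
  calc (H.card : ℝ) ≤ ((H.image (pr3 i j k)).card : ℝ) * e := h3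
    _ ≤ (ε / e * (n : ℝ) ^ 2) * e := mul_le_mul_of_nonneg_right h1 he1.le
    _ = ε * (n : ℝ) ^ 2 := by field_simp

end Pool.Agent.Q264.Bes
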